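import Mathlib

namespace Pool.Agent.P.MP_42ff57_nt

open Finset

variable {K : Type*} [Field K] [Fintype K] [DecidableEq K]

/-- A primitive additive character with values in the integers, invariant under squaring. -/
structure Good (χ : AddChar K ℤ) : Prop where
  prim : χ.IsPrimitive
  sq : ∀ x, χ (x ^ 2) = χ x

/-- The sign character of the field with two elements. -/
def psi : AddChar (ZMod 2) ℤ where
  toFun := fun a => if a = 0 then 1 else -1
  map_zero_eq_one' := by simp
  map_add_eq_mul' := by decide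

omit [DecidableEq K] in
theorem exists_good [CharP K 2] : ∃ χ : AddChar K ℤ, Good χ := by
  let _ : Algebra (ZMod 2) K := ZMod.algebra K 2
  let ψ : AddChar (ZMod 2) ℤ := psi
  let χ : AddChar K ℤ := ψ.compAddMonoidHom (Algebra.trace (ZMod 2) K).toAddMonoidHom
  have hχ : ∀ x, χ x = ψ (Algebra.trace (ZMod 2) K x) := fun x => rfl
  refine ⟨χ, ?_, ?_⟩
  · apply AddChar.IsPrimitive.of_ne_one
    obtain ⟨a, ha⟩ := Algebra.trace_surjective (ZMod 2) K 1
    intro h
    have h1 : χ a = 1 := by rw [h]; rfl
    rw [hχ, ha] at h1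
    revert h1
    decide
  · intro x
    rw [hχ, hχ]
    congr 1
    have := Algebra.trace_eq_of_algEquiv (FiniteField.frobeniusAlgEquivOfAlgebraic (ZMod 2) K) x
    rw [← this]
    congr 1

variable {χ : AddChar K ℤ}

theorem Good.orth (h : Good χ) (a : K) :
    ∑ x, χ (a * x) = if a = 0 then (Fintype.card K : ℤ) else 0 := by
  have := AddChar.sum_mulShift a h.prim
  simp_rw [mul_comm a]
  rw [this]; split_ifs <;> simp

theorem Good.sum_eq_zero (h : Good χ) : ∑ x, χ x = 0 := by
  simpa using h.orth 1

theorem Good.sum_ne_zero (h : Good χ) : ∑ x with x ≠ 0, χ x = -1 := by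
  have h0 := h.sum_eq_zero
  rw [← Finset.sum_filter_add_sum_filter_not univ (fun x : K => x ≠ 0)] at h0
  have : (univ.filter fun x : K => ¬ x ≠ 0) = {0} := by ext; simp
  rw [this] at h0
  simp at h0
  simp only [ne_eq]
  linarith

theorem Good.orth' (h : Good χ) (a : K) :
    ∑ x with x ≠ 0, χ (a * x) = (if a = 0 then (Fintype.card K : ℤ) else 0) - 1 := by
  have h0 := h.orth a
  rw [← Finset.sum_filter_add_sum_filter_not univ (fun x : K => x ≠ 0)] at h0
  have : (univ.filter fun x : K => ¬ x ≠ 0) = {0} := by ext; simp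
  rw [this] at h0
  simp only [sum_singleton, mul_zero, AddChar.map_zero_eq_one] at h0
  linarith

omit [Fintype K] [DecidableEq K] in
theorem chi_mul_self [CharP K 2] (x : K) : χ x * χ x = 1 := by
  rw [← AddChar.map_add_eq_mul, CharTwo.add_self_eq_zero, AddChar.map_zero_eq_one]

omit [Fintype K] [DecidableEq K] in
theorem chi_eq [CharP K 2] (x : K) : χ x = 1 ∨ χ x = -1 :=
  Int.eq_one_or_neg_one_of_mul_eq_one (chi_mul_self x)

omit [Fintype K] [DecidableEq K] in
theorem Good.pow (h : Good χ) (j : ℕ) (x : K) : χ (x ^ 2 ^ j) = χ x := by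
  induction j with
  | zero => simp
  | succ j ih => rw [pow_succ, pow_mul, h.sq, ih]

/-- Fourier inversion in the form used for the deconvolution. -/
theorem Good.eq_zero_of_fourier [CharP K 2] (h : Good χ) (φ : K → ℤ) (h0 : φ 0 = 0)
    (hφ : ∀ a, a ≠ 0 → ∑ u, χ (u * a) * φ u = 0) (v : K) : φ v = 0 := by
  have key : ∀ v, (Fintype.card K : ℤ) * φ v = ∑ u, φ u := by
    intro v
    have h1 : ∑ a, χ (v * a) * ∑ u, χ (u * a) * φ u = ∑ u, φ u := by
      rw [Finset.sum_eq_single (0 : K)]
      · simp
      · intro a _ ha; rw [hφ a ha, mul_zero]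
      · simp
    rw [← h1]
    simp_rw [Finset.mul_sum]
    rw [Finset.sum_comm]
    have h2 : ∀ u, ∑ a, χ (v * a) * (χ (u * a) * φ u) =
        (if v + u = 0 then (Fintype.card K : ℤ) else 0) * φ u := by
      intro u
      rw [← h.orth, Finset.sum_mul]
      refine Finset.sum_congr rfl fun a _ => ?_
      rw [add_mul, AddChar.map_add_eq_mul, mul_assoc]
    simp_rw [h2]
    rw [Finset.sum_eq_single v]
    · simp [CharTwo.add_self_eq_zero]
    · intro u _ hu
      have : v + u ≠ 0 := fun h => hu (by rw [CharTwo.add_eq_zero] at h; exact h.symm)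
      simp [this]
    · simp
  have h1 := key 0
  have h2 := key v
  rw [h0, mul_zero] at h1
  rw [← h1] at h2
  have : (Fintype.card K : ℤ) ≠ 0 := by exact_mod_cast Fintype.card_ne_zero
  exact (mul_eq_zero.mp h2).resolve_left this

end Pool.Agent.P.MP_42ff57_nt
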