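import Mathlib

namespace Pool.Agent.P.MP_42ff57_nt

open Finset WeierstrassCurve WeierstrassCurve.Affine

variable {K : Type*} [Field K]

/-- The curve `y ^ 2 + y = x ^ 3`. -/
def E (K : Type*) [Field K] : WeierstrassCurve.Affine K := ⟨0, 0, 1, 0, 0⟩

theorem E_negY (x y : K) : (E K).negY x y = -y - 1 := by simp [E]

theorem E_ns [CharP K 2] (x y : K) : (E K).Nonsingular x y ↔ y ^ 2 + y = x ^ 3 := by
  have two : (2 : K) = 0 := CharTwo.two_eq_zero
  rw [nonsingular_iff', equation_iff]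
  simp [E, two]

variable [CharP K 2] [DecidableEq K] {σ : K →+* K} {ω : K}

omit [DecidableEq K] in
theorem tw_ns (σ : K →+* K) (hω : ω ^ 3 = 1) {x y : K} (h : (E K).Nonsingular x y) :
    (E K).Nonsingular (ω * σ x) (σ y) := by
  rw [E_ns] at h ⊢
  have := congrArg σ h
  simp only [map_add, map_pow] at this
  rw [mul_pow, hω, one_mul, this]

omit [CharP K 2] in
theorem tw_slope (σ : K →+* K) (hω : ω ^ 3 = 1) (x₁ x₂ y₁ y₂ : K) :
    (E K).slope (ω * σ x₁) (ω * σ x₂) (σ y₁) (σ y₂) = ω ^ 2 * σ ((E K).slope x₁ x₂ y₁ y₂) := by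
  have h0 : ω ≠ 0 := by rintro rfl; simp at hω
  have e1 : ω * σ x₁ = ω * σ x₂ ↔ x₁ = x₂ := by
    rw [mul_right_inj' h0, σ.injective.eq_iff]
  have e2 : σ y₁ = (E K).negY (ω * σ x₂) (σ y₂) ↔ y₁ = (E K).negY x₂ y₂ := by
    rw [E_negY, E_negY, ← σ.injective.eq_iff (a := y₁)]; simp
  unfold Affine.slope
  simp only [e1, e2]
  split_ifs with h1 h2
  · simp
  · simp only [E_negY, map_div₀]
    simp only [E, map_add, map_sub, map_mul, map_pow, map_neg, map_one, map_zero, map_ofNat]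
    ring
  · have : ω ^ 2 = ω⁻¹ := by field_simp; exact hω
    rw [this, map_div₀, map_sub, map_sub, ← mul_sub, div_mul_eq_div_div_swap]
    field_simp

/-- The twisted Frobenius endomorphism `(x, y) ↦ (ω σ x, σ y)`. -/
noncomputable def tw (σ : K →+* K) (hω : ω ^ 3 = 1) : (E K).Point →+ (E K).Point where
  toFun P := match P with
    | 0 => 0
    | .some _ _ h => .some _ _ (tw_ns σ hω h)
  map_zero' := rfl
  map_add' := by
    have h0 : ω ≠ 0 := by rintro rfl; simp at hω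
    rintro (_ | ⟨x₁, y₁, h₁⟩) (_ | ⟨x₂, y₂, h₂⟩)
    any_goals rfl
    have e1 : ω * σ x₁ = ω * σ x₂ ↔ x₁ = x₂ := by
      rw [mul_right_inj' h0, σ.injective.eq_iff]
    have e2 : σ y₁ = (E K).negY (ω * σ x₂) (σ y₂) ↔ y₁ = (E K).negY x₂ y₂ := by
      rw [E_negY, E_negY, ← σ.injective.eq_iff (a := y₁)]; simp
    by_cases hxy : x₁ = x₂ ∧ y₁ = (E K).negY x₂ y₂
    · rw [Point.add_of_Y_eq hxy.left hxy.right, Point.add_of_Y_eq (e1.mpr hxy.1) (e2.mpr hxy.2)]
    · have hxy' : ¬ (ω * σ x₁ = ω * σ x₂ ∧ σ y₁ = (E K).negY (ω * σ x₂) (σ y₂)) := by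
        rwa [e1, e2]
      rw [Point.add_some hxy, Point.add_some hxy']
      simp only [Point.some.injEq, tw_slope σ hω, addY, E_negY, negAddY, addX]
      simp only [E, map_add, map_sub, map_mul, map_pow, map_neg, map_one, map_zero]
      generalize σ (slope _ x₁ x₂ y₁ y₂) = l
      constructor
      · linear_combination -(ω * l ^ 2) * hω
      · linear_combination (l ^ 3 * (ω ^ 3 + 1) - l * (2 * σ x₁ + σ x₂)) * hω

theorem tw_some (σ : K →+* K) (hω : ω ^ 3 = 1) {x y : K} (h : (E K).Nonsingular x y) :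
    tw σ hω (.some x y h) = .some _ _ (tw_ns σ hω h) := rfl

def tag : (E K).Point → K
  | 0 => 1
  | .some _ y _ => y

theorem ker_prop (hfix : ∀ x, σ x = x → x = 0 ∨ x = 1) (hroot : ∀ x, x ^ 3 = 1 → σ x = x ^ 2)
    (hω : ω ^ 3 = 1) {x y : K} {h : (E K).Nonsingular x y}
    (hk : .some x y h + tw σ hω (.some x y h) = 0) : y ^ 2 + y = 1 ∧ x = ω ^ 2 := by
  rw [add_eq_zero_iff_eq_neg', tw_some, Point.neg_some, Point.some.injEq, E_negY] at hk
  obtain ⟨hx, hy⟩ := hk
  have he := (E_ns x y).mp h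
  have h1 : σ (y ^ 2 + y) = y ^ 2 + y := by
    rw [map_add, map_pow, hy]; ring
  have h2 : y ^ 2 + y = 1 := by
    rcases hfix _ h1 with h2 | h2
    · exfalso
      have : y * (y + 1) = 0 := by linear_combination h2
      rcases mul_eq_zero.mp this with h3 | h3
      · rw [h3] at hy; simp at hy
      · rw [CharTwo.add_eq_zero] at h3
        rw [h3, map_one] at hy
        have : (1 : K) = 0 := by linear_combination (norm := (ring_nf; reduce_mod_char!)) hy
        exact one_ne_zero this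
    · exact h2
  refine ⟨h2, ?_⟩
  have h3 : x ^ 3 = 1 := he.symm.trans h2
  rw [hroot x h3] at hx
  linear_combination ω ^ 2 * x ^ 2 * hx + ω ^ 2 * h3 - x ^ 4 * hω - x * h3

variable [Fintype K]

/-- The cube roots of unity of the field. -/
def mu (K : Type*) [Field K] [Fintype K] [DecidableEq K] : Finset K :=
  univ.filter fun w => w ^ 3 = 1

theorem card_fibre_le (hfix : ∀ x, σ x = x → x = 0 ∨ x = 1) (hroot : ∀ x, x ^ 3 = 1 → σ x = x ^ 2)
    (hω : ω ^ 3 = 1) {ι : Type*} (S : Finset ι) (f : ι → (E K).Point) (hf : Set.InjOn f S)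
    (P : (E K).Point) (hP : ∀ s ∈ S, f s + tw σ hω (f s) = P) : S.card ≤ (mu K).card := by
  rcases S.eq_empty_or_nonempty with rfl | ⟨s₀, hs₀⟩
  · simp
  have hker : ∀ s ∈ S, (f s - f s₀) + tw σ hω (f s - f s₀) = 0 := by
    intro s hs
    rw [map_sub, sub_add_sub_comm, hP s hs, hP s₀ hs₀, sub_self]
  have h1 : ∀ R, R + tw σ hω R = 0 → tag R ^ 3 = 1 := by
    rintro (_ | ⟨x, y, h⟩) hR
    · simp [tag]
    · have := (ker_prop hfix hroot hω hR).1
      simp only [tag]
      linear_combination (norm := (ring_nf; reduce_mod_char!)) (y + 1) * this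
  have h2 : ∀ R R', R + tw σ hω R = 0 → R' + tw σ hω R' = 0 → tag R = tag R' → R = R' := by
    have hne : ∀ y : K, y ^ 2 + y = 1 → y ≠ 1 := by
      rintro y hy rfl
      have : (1 : K) = 0 := by linear_combination hy
      exact one_ne_zero this
    rintro (_ | ⟨x, y, h⟩) (_ | ⟨x', y', h'⟩) hR hR' ht
    · rfl
    · exact absurd ht.symm (hne _ (ker_prop hfix hroot hω hR').1)
    · exact absurd ht (hne _ (ker_prop hfix hroot hω hR).1)
    · rw [Point.some.injEq]
      exact ⟨(ker_prop hfix hroot hω hR).2.trans (ker_prop hfix hroot hω hR').2.symm, ht⟩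
  refine Finset.card_le_card_of_injOn (fun s => tag (f s - f s₀)) ?_ ?_
  · intro s hs
    simp only [mu, coe_filter, mem_univ, true_and, Set.mem_ofPred_eq]
    exact h1 _ (hker s hs)
  · intro s hs t ht hst
    exact hf hs ht (sub_left_injective (h2 _ _ (hker s hs) (hker t ht) hst))

omit [Fintype K] in
/-- Three points of the curve on a common line. -/
theorem collinear {α β x₀ η x₁ y₁ x₂ y₂ : K} (h₀ : (E K).Nonsingular x₀ (η + 1))
    (h₁ : (E K).Nonsingular x₁ y₁) (h₂ : (E K).Nonsingular x₂ y₂) (hy : y₁ ≠ y₂) (hα : α ≠ 0)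
    (e₀ : η = α * x₀ + β) (e₁ : y₁ = α * x₁ + β) (e₂ : y₂ = α * x₂ + β)
    (hs : y₁ + y₂ + η + β = α ^ 3) :
    Point.some x₁ y₁ h₁ + Point.some x₂ y₂ h₂ = Point.some x₀ (η + 1) h₀ := by
  have hx : x₁ ≠ x₂ := by rintro rfl; exact hy (e₁.trans e₂.symm)
  have hl : (E K).slope x₁ x₂ y₁ y₂ = α := by
    rw [slope_of_X_ne hx, div_eq_iff (sub_ne_zero.mpr hx), e₁, e₂]; ring
  have hX : α ^ 2 - x₁ - x₂ = x₀ := by
    apply mul_left_cancel₀ hα
    rw [e₀, e₁, e₂] at hs
    linear_combination (norm := (ring_nf; reduce_mod_char!)) hs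
  rw [Point.add_of_X_ne hx, Point.some.injEq, hl]
  simp only [addY, E_negY, negAddY, addX]
  simp only [E, zero_mul, add_zero, sub_zero, hX, true_and]
  rw [e₀, e₁]
  linear_combination (norm := (ring_nf; reduce_mod_char!))

variable {π : K →*₀ K}

def Lam (η : K) : Finset (K × K) := univ.filter fun l => l.1 ^ 3 = η ∧ l.2 ^ 3 = η + 1

def Sol (π : K →*₀ K) (η : K) : Finset ((K × K) × K) :=
  univ.filter fun s => (s.1.1 ^ 3 = η ∧ s.1.2 ^ 3 = η + 1) ∧
    s.1.1 * π s.2 + s.1.2 * π (s.2 + 1) + 1 = 0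

omit [CharP K 2] in
theorem card_mu_sq_le {η : K} (h0 : η ≠ 0) (h1 : η + 1 ≠ 0) {l : K × K} (hl : l ∈ Lam η) :
    (mu K).card * (mu K).card ≤ (Lam η).card := by
  simp only [Lam, mem_filter, mem_univ, true_and] at hl
  have a1 : l.1 ≠ 0 := by intro h; rw [h] at hl; exact h0 (by simpa using hl.1.symm)
  have a2 : l.2 ≠ 0 := by intro h; rw [h] at hl; exact h1 (by simpa using hl.2.symm)
  rw [← Finset.card_product]
  refine Finset.card_le_card_of_injOn (fun w => (w.1 * l.1, w.2 * l.2)) ?_ ?_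
  · rintro ⟨a, b⟩ hw
    simp only [mu, coe_product, coe_filter, mem_univ, true_and, Set.mem_prod,
      Set.mem_ofPred_eq] at hw
    simp [Lam, mul_pow, hw.1, hw.2, hl.1, hl.2]
  · rintro ⟨a, b⟩ - ⟨c, d⟩ - h
    simp only [Prod.mk.injEq] at h ⊢
    exact ⟨mul_right_cancel₀ a1 h.1, mul_right_cancel₀ a2 h.2⟩

omit [Fintype K] [DecidableEq K] in
theorem sol_facts (hfix : ∀ x, σ x = x → x = 0 ∨ x = 1) (h3 : ∀ x, π x ^ 3 = x * σ x)
    {η x₀ l₁ l₂ y : K} (h0 : η ≠ 0) (h1 : η + 1 ≠ 0) (hx₀ : x₀ ^ 3 = η ^ 2 + η)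
    (hl₁ : l₁ ^ 3 = η) (hl₂ : l₂ ^ 3 = η + 1) (hs : l₁ * π y + l₂ * π (y + 1) + 1 = 0) :
    y ≠ 0 ∧ y + 1 ≠ 0 ∧ y ≠ σ y ∧ η + l₁ * π y ≠ 0 ∧
      y + σ y + η + l₁ * π y = ((η + l₁ * π y) / x₀) ^ 3 ∧
      (y + l₁ * π y) ^ 3 = ((η + l₁ * π y) / x₀) ^ 3 * (y ^ 2 + y) ∧
      (σ y + l₁ * π y) ^ 3 = ((η + l₁ * π y) / x₀) ^ 3 * (σ y ^ 2 + σ y) := by
  have y0 : y ≠ 0 := by
    rintro rfl
    simp only [map_zero, mul_zero, zero_add, map_one, mul_one, CharTwo.add_eq_zero] at hs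
    rw [hs] at hl₂
    exact h0 (by linear_combination -hl₂)
  have y1 : y + 1 ≠ 0 := by
    intro hy
    rw [hy] at hs
    rw [CharTwo.add_eq_zero] at hy
    rw [hy] at hs
    simp only [map_zero, mul_zero, add_zero, map_one, mul_one, CharTwo.add_eq_zero] at hs
    rw [hs] at hl₁
    exact h1 (by linear_combination (norm := (ring_nf; reduce_mod_char!)) hl₁)
  have yσ : y ≠ σ y := by
    intro h
    rcases hfix y h.symm with h | h
    · exact y0 h
    · exact y1 (by rw [h, CharTwo.add_self_eq_zero])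
  set β := l₁ * π y with hβ
  have c0 : β ^ 3 = η * (y * σ y) := by rw [hβ, mul_pow, hl₁, h3]
  have c1 : (β + 1) ^ 3 = (η + 1) * ((y + 1) * (σ y + 1)) := by
    have : β + 1 = l₂ * π (y + 1) := by
      linear_combination (norm := (ring_nf; reduce_mod_char!)) hs
    rw [this, mul_pow, hl₂, h3, map_add, map_one]
  have key : ∀ T, (T + y) * (T + σ y) * (T + η) =
      (T + β) ^ 3 + (y + σ y + η + β) * (T ^ 2 + T) := by
    intro T
    linear_combination (norm := (ring_nf; reduce_mod_char!)) (T + 1) * c0 + T * c1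
  have k0 : (η + β) ^ 3 = (y + σ y + η + β) * (η ^ 2 + η) := by
    linear_combination (norm := (ring_nf; reduce_mod_char!)) key η
  have k1 : (y + β) ^ 3 = (y + σ y + η + β) * (y ^ 2 + y) := by
    linear_combination (norm := (ring_nf; reduce_mod_char!)) key y
  have k2 : (σ y + β) ^ 3 = (y + σ y + η + β) * (σ y ^ 2 + σ y) := by
    linear_combination (norm := (ring_nf; reduce_mod_char!)) key (σ y)
  have hη : η ^ 2 + η ≠ 0 := by
    have : η ^ 2 + η = η * (η + 1) := by ring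
    rw [this]; exact mul_ne_zero h0 h1
  have ha : y + σ y + η + β = ((η + β) / x₀) ^ 3 := by
    rw [div_pow, hx₀, eq_div_iff hη, k0]
  refine ⟨y0, y1, yσ, ?_, ha, ha ▸ k1, ha ▸ k2⟩
  intro h
  rw [h] at ha
  simp only [zero_div, ne_eq, OfNat.ofNat_ne_zero, not_false_eq_true, zero_pow] at ha
  apply yσ
  linear_combination (norm := (ring_nf; reduce_mod_char!)) ha + h

/-- The elliptic curve bound. -/
theorem card_Sol_le (hfix : ∀ x, σ x = x → x = 0 ∨ x = 1) (hroot : ∀ x, x ^ 3 = 1 → σ x = x ^ 2)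
    (h3 : ∀ x, π x ^ 3 = x * σ x) {η : K} (h0 : η ≠ 0) (h1 : η + 1 ≠ 0) :
    (Sol π η).card ≤ (Lam η).card := by
  rcases (Sol π η).eq_empty_or_nonempty with he | ⟨s₀, hs₀⟩
  · simp [he]
  have hl : s₀.1 ∈ Lam η := by
    simp only [Sol, Lam, mem_filter, mem_univ, true_and] at hs₀ ⊢
    exact hs₀.1
  refine le_trans ?_ (card_mu_sq_le h0 h1 hl)
  obtain ⟨x₀, hx₀⟩ : ∃ x₀ : K, x₀ ^ 3 = η ^ 2 + η := by
    simp only [Lam, mem_filter, mem_univ, true_and] at hl
    exact ⟨s₀.1.1 * s₀.1.2, by rw [mul_pow, hl.1, hl.2]; ring⟩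
  have x00 : x₀ ≠ 0 := by
    rintro rfl
    have : η * (η + 1) = 0 := by linear_combination -hx₀
    exact mul_ne_zero h0 h1 this
  have h₀ : (E K).Nonsingular x₀ (η + 1) := by
    rw [E_ns, hx₀]; linear_combination (norm := (ring_nf; reduce_mod_char!))
  let β : (K × K) × K → K := fun s => s.1.1 * π s.2
  let α : (K × K) × K → K := fun s => (η + β s) / x₀
  let X : (K × K) × K → K := fun s => (s.2 + β s) / α s
  let X' : (K × K) × K → K := fun s => (σ s.2 + β s) / α s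
  let w : (K × K) × K → K := fun s => X' s / σ (X s)
  have facts : ∀ s ∈ Sol π η, s.2 ≠ 0 ∧ s.2 + 1 ≠ 0 ∧ s.2 ≠ σ s.2 ∧ α s ≠ 0 ∧
      s.2 + σ s.2 + η + β s = α s ^ 3 ∧ s.2 ^ 2 + s.2 = X s ^ 3 ∧ w s ^ 3 = 1 ∧
      s.2 = α s * X s + β s ∧ σ s.2 = α s * (w s * σ (X s)) + β s := by
    intro s hs
    simp only [Sol, mem_filter, mem_univ, true_and] at hs
    obtain ⟨a1, a2, a3, a4, a5, a6, a7⟩ := sol_facts hfix h3 h0 h1 hx₀ hs.1.1 hs.1.2 hs.2
    have hα : α s ≠ 0 := div_ne_zero a4 x00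
    have b1 : s.2 ^ 2 + s.2 = X s ^ 3 := by
      simp only [X]
      rw [div_pow, eq_div_iff (pow_ne_zero 3 hα), a6, mul_comm]
    have b2 : σ s.2 ^ 2 + σ s.2 = X' s ^ 3 := by
      simp only [X']
      rw [div_pow, eq_div_iff (pow_ne_zero 3 hα), a7, mul_comm]
    have b3 : X s ≠ 0 := by
      intro h
      rw [h] at b1
      have : s.2 * (s.2 + 1) = 0 := by linear_combination b1
      exact mul_ne_zero a1 a2 this
    have b4 : σ (X s) ≠ 0 := by simpa using b3
    have b5 : w s * σ (X s) = X' s := div_mul_cancel₀ _ b4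
    refine ⟨a1, a2, a3, hα, a5, b1, ?_, ?_, ?_⟩
    · simp only [w]
      rw [div_pow, div_eq_one_iff_eq (pow_ne_zero 3 b4), ← b2, ← map_pow σ (X s), ← b1, map_add,
        map_pow]
    · simp only [X]
      rw [mul_div_cancel₀ _ hα, add_assoc, CharTwo.add_self_eq_zero, add_zero]
    · rw [b5]
      simp only [X']
      rw [mul_div_cancel₀ _ hα, add_assoc, CharTwo.add_self_eq_zero, add_zero]
  refine Finset.card_le_mul_card_image_of_maps_to (f := w) ?_ _ ?_
  · intro s hs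
    simp only [mu, mem_filter, mem_univ, true_and]
    exact (facts s hs).2.2.2.2.2.2.1
  intro ω hω
  have hω' : ω ^ 3 = 1 := by simpa [mu] using hω
  classical
  let f : (K × K) × K → (E K).Point := fun s =>
    if h : (E K).Nonsingular (X s) s.2 then .some _ _ h else 0
  have hns : ∀ s ∈ Sol π η, (E K).Nonsingular (X s) s.2 := fun s hs =>
    (E_ns _ _).mpr (facts s hs).2.2.2.2.2.1
  refine card_fibre_le hfix hroot hω' _ f ?_ (.some x₀ (η + 1) h₀) ?_
  · intro s hs t ht hst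
    simp only [coe_filter, Set.mem_ofPred_eq] at hs ht
    simp only [f, dif_pos (hns s hs.1), dif_pos (hns t ht.1), Point.some.injEq] at hst
    obtain ⟨a1, a2, a3, -, -, -, -, a8, a9⟩ := facts s hs.1
    obtain ⟨-, -, -, -, -, -, -, b8, b9⟩ := facts t ht.1
    rw [hs.2] at a9
    rw [ht.2, ← hst.1, ← hst.2] at b9
    rw [← hst.1, ← hst.2] at b8
    have hd : X s - ω * σ (X s) ≠ 0 := by
      intro h
      apply a3
      linear_combination a8 - a9 + α s * h
    have hα : α s = α t := by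
      apply mul_left_cancel₀ hd
      linear_combination b8 - b9 - a8 + a9
    have hβ : β s = β t := by
      rw [← hα] at b8
      linear_combination b8 - a8
    have hs' := hs.1
    have ht' := ht.1
    simp only [Sol, mem_filter, mem_univ, true_and] at hs' ht'
    have p1 : π s.2 ≠ 0 := by simpa using a1
    have p2 : π (s.2 + 1) ≠ 0 := by simpa using a2
    have hβ' : s.1.1 * π s.2 = t.1.1 * π s.2 := by
      have := hβ
      simp only [β] at this
      rwa [← hst.2] at this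
    have e2 := ht'.2
    rw [← hst.2] at e2
    refine Prod.ext (Prod.ext (mul_right_cancel₀ p1 hβ') (mul_right_cancel₀ p2 ?_)) hst.2
    linear_combination hs'.2 - e2 - hβ'
  · intro s hs
    simp only [mem_filter] at hs
    obtain ⟨-, -, a3, a4, a5, -, -, a8, a9⟩ := facts s hs.1
    rw [hs.2] at a9
    simp only [f, dif_pos (hns s hs.1), tw_some]
    refine collinear h₀ _ _ a3 a4 ?_ a8 a9 a5
    simp only [α]
    rw [div_mul_cancel₀ _ x00, add_assoc, CharTwo.add_self_eq_zero, add_zero]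

end Pool.Agent.P.MP_42ff57_nt
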