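import Pool.Agent.P.MP_42ff57_nt.Swap
import Pool.Agent.P.MP_42ff57_nt.Curve

namespace Pool.Agent.P.MP_42ff57_nt

open Finset

variable {K : Type*} [Field K] [Fintype K] [DecidableEq K] [CharP K 2]
variable {χ : AddChar K ℤ} {σ : K →+* K} {π : K →*₀ K}

omit [Fintype K] [DecidableEq K] in
theorem frob_two (h : Good χ) : Frob χ (frobenius K 2) where
  inv := fun x => by rw [frobenius_def, h.sq]
  fix := fun x hx => by
    rw [frobenius_def] at hx
    have : x * (x - 1) = 0 := by linear_combination hx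
    rcases mul_eq_zero.mp this with h | h
    · exact Or.inl h
    · exact Or.inr (sub_eq_zero.mp h)

theorem sgn_two (h : Good χ) {b : K} (hb : b ≠ 0) : sgn χ (frobenius K 2) b = χ b⁻¹ := by
  apply sgn_eq h (frob_two h)
  simp only [M, frobenius_def]
  field_simp
  linear_combination (norm := (ring_nf; reduce_mod_char!))

/-- The Dillon and Dobbertin identity. -/
theorem dd (h : Good χ) (hσ : Frob χ σ) {n : ℕ} (hn : Fintype.card K = 2 ^ n)
    (h0 : ∀ b, ∑ t with t ≠ 0, χ t * F0 χ σ (b * t ^ 3) =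
      ∑ z with z ≠ 0, χ z * F0 χ (frobenius K 2) (b * π z ^ 3))
    (h1 : ∀ b, ∑ t with t ≠ 0, χ t * F1 χ σ (b * t ^ 3) =
      ∑ z with z ≠ 0, χ z * F1 χ (frobenius K 2) (b * π z ^ 3)) {y : K} (hy : y ≠ 0) :
    ∑ t with t ≠ 0, χ t * eps χ σ (y / t ^ 3) = ∑ z with z ≠ 0, χ z * χ (y / π z ^ 3) := by
  have hQ : (2 * Fintype.card K : ℤ) ≠ 0 := by
    have : (Fintype.card K : ℤ) ≠ 0 := by exact_mod_cast Fintype.card_ne_zero
    exact mul_ne_zero two_ne_zero this
  apply mul_left_cancel₀ hQ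
  have eL : ∀ t ∈ univ.filter fun t : K => t ≠ 0,
      2 * (Fintype.card K : ℤ) * (χ t * eps χ σ (y / t ^ 3)) =
        χ t * F1 χ σ (y⁻¹ * t ^ 3) - (-1) ^ n * (χ t * F0 χ σ (y⁻¹ * t ^ 3)) +
          (-1) ^ n * (2 * Fintype.card K) * χ t := by
    intro t ht
    have ht' : t ≠ 0 := by simpa using ht
    have e1 : (y / t ^ 3)⁻¹ = y⁻¹ * t ^ 3 := by field_simp
    have := sgn_formula h hσ hn (y⁻¹ * t ^ 3)
    rw [eps, if_neg (div_ne_zero hy (pow_ne_zero 3 ht')), e1]
    linear_combination χ t * this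
  have eR : ∀ z ∈ univ.filter fun z : K => z ≠ 0,
      2 * (Fintype.card K : ℤ) * (χ z * χ (y / π z ^ 3)) =
        χ z * F1 χ (frobenius K 2) (y⁻¹ * π z ^ 3) -
          (-1) ^ n * (χ z * F0 χ (frobenius K 2) (y⁻¹ * π z ^ 3)) +
          (-1) ^ n * (2 * Fintype.card K) * χ z := by
    intro z hz
    have hz' : π z ≠ 0 := by simpa using hz
    have e1 : y / π z ^ 3 = (y⁻¹ * π z ^ 3)⁻¹ := by field_simp
    have := sgn_formula h (frob_two h) hn (y⁻¹ * π z ^ 3)
    rw [sgn_two h (mul_ne_zero (inv_ne_zero hy) (pow_ne_zero 3 hz'))] at this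
    rw [e1]
    linear_combination χ z * this
  rw [Finset.mul_sum, Finset.mul_sum, Finset.sum_congr rfl eL, Finset.sum_congr rfl eR]
  simp only [Finset.sum_add_distrib, Finset.sum_sub_distrib, ← Finset.mul_sum, h0, h1]

def W (χ : AddChar K ℤ) (π : K →*₀ K) (κ : K) : ℤ := ∑ z, χ (z + κ * π z)

omit [CharP K 2] in
theorem W_zero (h : Good χ) : W χ π 0 = 0 := by simp [W, h.sum_eq_zero]

/-- Deconvolution of the Dillon and Dobbertin identity. -/
theorem star (h : Good χ) (ε : K → ℤ) (hε : ε 0 = 1)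
    (hdd : ∀ y, y ≠ 0 → ∑ t with t ≠ 0, χ t * ε (y / t ^ 3) = ∑ z with z ≠ 0, χ z * χ (y / π z ^ 3))
    (y : K) : Fintype.card K * ε y = ∑ κ, χ (y * κ ^ 3) * W χ π κ := by
  by_cases hy : y = 0
  · subst hy
    simp only [zero_mul, AddChar.map_zero_eq_one, one_mul, W, hε, mul_one]
    rw [Finset.sum_comm]
    have : ∀ z, ∑ κ, χ (z + κ * π z) = χ z * if π z = 0 then (Fintype.card K : ℤ) else 0 := by
      intro z
      rw [← h.orth, Finset.mul_sum]
      refine Finset.sum_congr rfl fun κ _ => ?_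
      rw [AddChar.map_add_eq_mul, mul_comm κ]
    simp_rw [this]
    rw [Finset.sum_eq_single 0] <;> simp +contextual
  let H : K → ℤ := fun y => ∑ κ, χ (y * κ ^ 3) * W χ π κ
  have hH : ∀ y, ∑ t with t ≠ 0, χ t * H (y / t ^ 3) =
      Fintype.card K * ∑ z with z ≠ 0, χ z * χ (y / π z ^ 3) := by
    intro y
    have e1 : ∀ t ∈ univ.filter fun t : K => t ≠ 0, χ t * H (y / t ^ 3) =
        ∑ z, ∑ l, χ z * χ (y * l ^ 3) * χ ((1 + l * π z) * t) := by
      intro t ht
      have ht' : t ≠ 0 := by simpa using ht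
      simp only [H, W]
      rw [← (mulLeft_bijective₀ t ht').sum_comp, Finset.sum_comm, Finset.mul_sum]
      refine Finset.sum_congr rfl fun l _ => ?_
      rw [Finset.mul_sum, Finset.mul_sum]
      refine Finset.sum_congr rfl fun z _ => ?_
      have : y / t ^ 3 * (t * l) ^ 3 = y * l ^ 3 := by field_simp
      rw [this]
      simp only [← AddChar.map_add_eq_mul]
      congr 1; ring
    rw [Finset.sum_congr rfl e1, Finset.sum_comm]
    have e2 : ∀ z, ∑ t with t ≠ 0, ∑ l, χ z * χ (y * l ^ 3) * χ ((1 + l * π z) * t) =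
        (if z ≠ 0 then Fintype.card K * (χ z * χ (y / π z ^ 3)) else 0) -
          χ z * ∑ l, χ (y * l ^ 3) := by
      intro z
      rw [Finset.sum_comm]
      simp only [← Finset.mul_sum, h.orth', mul_sub, mul_one, Finset.sum_sub_distrib]
      congr 1
      by_cases hz : z = 0
      · simp [hz]
      · have hp : π z ≠ 0 := by simpa using hz
        rw [if_pos hz, Finset.sum_eq_single (π z)⁻¹]
        · rw [inv_mul_cancel₀ hp, CharTwo.add_self_eq_zero, if_pos rfl, inv_pow, ← div_eq_mul_inv]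
          ring
        · intro l _ hl
          rw [if_neg, mul_zero]
          rw [CharTwo.add_eq_zero]
          intro h1
          exact hl (eq_inv_of_mul_eq_one_left h1.symm)
        · simp
    simp_rw [e2]
    rw [Finset.sum_sub_distrib, ← Finset.sum_mul, h.sum_eq_zero, zero_mul, sub_zero,
      ← Finset.sum_filter, Finset.mul_sum]
  let φ : K → ℤ := fun u => if u = 0 then 0 else Fintype.card K * ε (y / u ^ 3) - H (y / u ^ 3)
  have hφ := h.eq_zero_of_fourier φ (by simp [φ]) (fun a ha => ?_) 1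
  · simp only [φ, one_ne_zero, if_false, one_pow, div_one] at hφ
    exact sub_eq_zero.mp hφ
  · have e1 : ∑ u, χ (u * a) * φ u =
        ∑ t with t ≠ 0, (Fintype.card K * (χ t * ε (y * a ^ 3 / t ^ 3)) -
          χ t * H (y * a ^ 3 / t ^ 3)) := by
      rw [← (mulRight_bijective₀ a⁻¹ (inv_ne_zero ha)).sum_comp, Finset.sum_filter]
      refine Finset.sum_congr rfl fun t _ => ?_
      by_cases ht : t = 0
      · simp [ht, φ]
      · have e2 : y / (t * a⁻¹) ^ 3 = y * a ^ 3 / t ^ 3 := by field_simp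
        simp only [φ, mul_ne_zero ht (inv_ne_zero ha), if_false, ne_eq, ht, not_false_eq_true,
          if_true, e2, inv_mul_cancel_right₀ ha]
        ring
    rw [e1, Finset.sum_sub_distrib, ← Finset.mul_sum, hH,
      hdd _ (mul_ne_zero hy (pow_ne_zero 3 ha)), sub_self]

omit [CharP K 2] in
theorem sum_eps (h : Good χ) (ε : K → ℤ)
    (hs : ∀ y, Fintype.card K * ε y = ∑ κ, χ (y * κ ^ 3) * W χ π κ) : ∑ y, ε y = 0 := by
  have hQ : (Fintype.card K : ℤ) ≠ 0 := by exact_mod_cast Fintype.card_ne_zero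
  apply mul_left_cancel₀ hQ
  rw [Finset.mul_sum, mul_zero]
  simp_rw [hs]
  rw [Finset.sum_comm]
  refine Finset.sum_eq_zero fun κ _ => ?_
  rw [← Finset.sum_mul]
  simp_rw [mul_comm _ (κ ^ 3), h.orth]
  by_cases hκ : κ = 0
  · rw [hκ, W_zero h, mul_zero]
  · simp [hκ]

def T (ε : K → ℤ) (η : K) : ℤ := ∑ x, ∑ y, ε x * ε y * ε (η * x + (η + 1) * y)

omit [CharP K 2] [DecidableEq K] in
theorem W_mul {s : K} (hs : s ≠ 0) (l : K) :
    W χ π (l * π s⁻¹) = ∑ z, χ (s * z + l * π z) := by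
  have hp : π s ≠ 0 := by simpa using hs
  rw [W, ← (mulLeft_bijective₀ s hs).sum_comp]
  refine Finset.sum_congr rfl fun z _ => ?_
  rw [map_mul, map_inv₀]
  congr 2
  field_simp

theorem B_eq (h : Good χ) (hπ : Function.Injective π) {l₁ l₂ : K} (h12 : l₁ ≠ l₂) :
    ∑ κ, W χ π (l₁ * κ) * W χ π (l₂ * κ) * W χ π κ = Fintype.card K * (Fintype.card K *
      ((univ.filter fun y => l₁ * π y + l₂ * π (y + 1) + 1 = 0).card - 1)) := by
  have hb : Function.Bijective fun s : K => π s⁻¹ := (pi_bij hπ).comp inv_involutive.bijective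
  have hz : ∀ l, l ≠ 0 → ∑ z, χ (l * π z) = 0 := by
    intro l hl
    rw [(pi_bij hπ).sum_comp (fun z => χ (l * z)), h.orth, if_neg hl]
  have e1 : ∑ κ, W χ π (l₁ * κ) * W χ π (l₂ * κ) * W χ π κ =
      ∑ s, (∑ z, χ (s * z + l₁ * π z)) * (∑ z, χ (s * z + l₂ * π z)) * ∑ z, χ (s * z + π z) := by
    rw [← hb.sum_comp]
    refine Finset.sum_congr rfl fun s _ => ?_
    by_cases hs : s = 0
    · have := hz 1 one_ne_zero
      simp only [one_mul] at this
      simp [hs, W_zero h, this]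
    · have := W_mul (χ := χ) (π := π) hs 1
      simp only [one_mul] at this
      rw [W_mul hs, W_mul hs, this]
  have e2 : ∑ s, (∑ z, χ (s * z + l₁ * π z)) * (∑ z, χ (s * z + l₂ * π z)) *
      ∑ z, χ (s * z + π z) =
      Fintype.card K * ∑ w, ∑ z, χ (l₁ * π z + l₂ * π (z + w) + π w) := by
    have e3 : ∀ s, (∑ z, χ (s * z + l₁ * π z)) * (∑ z, χ (s * z + l₂ * π z)) *
        ∑ z, χ (s * z + π z) =
        ∑ w, ∑ z, ∑ u, χ (l₁ * π z + l₂ * π u + π w) * χ ((z + w + u) * s) := by
      intro s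
      rw [Finset.sum_mul_sum, mul_comm, Finset.sum_mul]
      refine Finset.sum_congr rfl fun w _ => ?_
      rw [Finset.mul_sum]
      refine Finset.sum_congr rfl fun z _ => ?_
      rw [Finset.mul_sum]
      refine Finset.sum_congr rfl fun u _ => ?_
      simp only [← AddChar.map_add_eq_mul]
      congr 1; ring
    simp_rw [e3]
    rw [Finset.sum_comm, Finset.mul_sum]
    refine Finset.sum_congr rfl fun w _ => ?_
    rw [Finset.sum_comm, Finset.mul_sum]
    refine Finset.sum_congr rfl fun z _ => ?_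
    rw [Finset.sum_comm]
    simp only [← Finset.mul_sum, h.orth, CharTwo.add_eq_zero]
    rw [Finset.sum_eq_single (z + w)]
    · simp [mul_comm]
    · intro u _ hu; rw [if_neg (Ne.symm hu), mul_zero]
    · simp
  rw [e1, e2]
  congr 1
  rw [← Finset.sum_filter_add_sum_filter_not univ (fun x : K => x ≠ 0)]
  have e4 : (univ.filter fun x : K => ¬ x ≠ 0) = {0} := by ext; simp
  have e5 : ∑ z, χ (l₁ * π z + l₂ * π z) = 0 := by
    simp_rw [← add_mul]
    exact hz _ (by rwa [Ne, CharTwo.add_eq_zero])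
  rw [e4, Finset.sum_singleton]
  simp only [add_zero, map_zero, e5]
  have e6 : ∀ w ∈ univ.filter fun w : K => w ≠ 0, ∑ z, χ (l₁ * π z + l₂ * π (z + w) + π w) =
      ∑ y, χ ((l₁ * π y + l₂ * π (y + 1) + 1) * π w) := by
    intro w hw
    have hw' : w ≠ 0 := by simpa using hw
    rw [← (mulRight_bijective₀ w hw').sum_comp]
    refine Finset.sum_congr rfl fun y _ => ?_
    have : y * w + w = (y + 1) * w := by ring
    rw [this, map_mul, map_mul]
    congr 1; ring
  rw [Finset.sum_congr rfl e6, Finset.sum_comm]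
  have e7 : ∀ c : K, ∑ w with w ≠ 0, χ (c * π w) =
      (if c = 0 then (Fintype.card K : ℤ) else 0) - 1 := by
    intro c
    rw [sum_ne_zero_comp (pi_bij hπ) (map_zero π) (fun w => χ (c * w)), h.orth']
  simp_rw [e7]
  rw [Finset.sum_sub_distrib, ← Finset.sum_filter]
  simp [mul_sub, mul_comm]

theorem T_formula (h : Good χ) (hπ : Function.Injective π) (ε : K → ℤ)
    (hs : ∀ y, Fintype.card K * ε y = ∑ κ, χ (y * κ ^ 3) * W χ π κ) (η : K) :
    T ε η = Fintype.card K * (((Sol π η).card : ℤ) - (Lam η).card) := by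
  have hQ : (Fintype.card K : ℤ) ≠ 0 := by exact_mod_cast Fintype.card_ne_zero
  apply mul_left_cancel₀ (pow_ne_zero 3 hQ)
  have e1 : (Fintype.card K : ℤ) ^ 3 * T ε η = ∑ c, ∑ a, ∑ b,
      (if a ^ 3 = η * c ^ 3 ∧ b ^ 3 = (η + 1) * c ^ 3 then (Fintype.card K : ℤ) ^ 2 else 0) *
        (W χ π a * W χ π b * W χ π c) := by
    have e2 : ∀ x y, (Fintype.card K : ℤ) ^ 3 * (ε x * ε y * ε (η * x + (η + 1) * y)) =
        ∑ c, ∑ a, ∑ b, χ ((a ^ 3 + η * c ^ 3) * x) * χ ((b ^ 3 + (η + 1) * c ^ 3) * y) *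
          (W χ π a * W χ π b * W χ π c) := by
      intro x y
      have : (Fintype.card K : ℤ) ^ 3 * (ε x * ε y * ε (η * x + (η + 1) * y)) =
          Fintype.card K * ε (η * x + (η + 1) * y) *
            (Fintype.card K * ε x * (Fintype.card K * ε y)) := by ring
      rw [this, hs, hs, hs, Finset.sum_mul_sum, Finset.sum_mul]
      refine Finset.sum_congr rfl fun c _ => ?_
      rw [Finset.mul_sum]
      refine Finset.sum_congr rfl fun a _ => ?_
      rw [Finset.mul_sum]
      refine Finset.sum_congr rfl fun b _ => ?_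
      have e3 : χ ((a ^ 3 + η * c ^ 3) * x) * χ ((b ^ 3 + (η + 1) * c ^ 3) * y) =
          χ ((η * x + (η + 1) * y) * c ^ 3) * χ (x * a ^ 3) * χ (y * b ^ 3) := by
        simp only [← AddChar.map_add_eq_mul]
        congr 1; ring
      rw [e3]; ring
    simp only [T, Finset.mul_sum, e2]
    calc _ = ∑ x, ∑ c, ∑ a, ∑ b, ∑ y, χ ((a ^ 3 + η * c ^ 3) * x) *
            χ ((b ^ 3 + (η + 1) * c ^ 3) * y) * (W χ π a * W χ π b * W χ π c) := by
          refine Finset.sum_congr rfl fun x _ => ?_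
          rw [Finset.sum_comm]
          refine Finset.sum_congr rfl fun c _ => ?_
          rw [Finset.sum_comm]
          refine Finset.sum_congr rfl fun a _ => ?_
          rw [Finset.sum_comm]
      _ = _ := by
          rw [Finset.sum_comm]
          refine Finset.sum_congr rfl fun c _ => ?_
          rw [Finset.sum_comm]
          refine Finset.sum_congr rfl fun a _ => ?_
          rw [Finset.sum_comm]
          refine Finset.sum_congr rfl fun b _ => ?_
          simp only [← Finset.sum_mul, ← Finset.mul_sum, h.orth, CharTwo.add_eq_zero]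
          congr 1
          by_cases h1 : a ^ 3 = η * c ^ 3 <;> by_cases h2 : b ^ 3 = (η + 1) * c ^ 3 <;>
            simp [h1, h2, sq]
  have e4 : ∀ c, ∑ a, ∑ b,
      (if a ^ 3 = η * c ^ 3 ∧ b ^ 3 = (η + 1) * c ^ 3 then (Fintype.card K : ℤ) ^ 2 else 0) *
        (W χ π a * W χ π b * W χ π c) =
      ∑ l ∈ Lam η, (Fintype.card K : ℤ) ^ 2 * (W χ π (l.1 * c) * W χ π (l.2 * c) * W χ π c) := by
    intro c
    by_cases hc : c = 0
    · simp [hc, W_zero h]
    rw [Lam, Finset.sum_filter, Fintype.sum_prod_type, ← (mulRight_bijective₀ c hc).sum_comp]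
    refine Finset.sum_congr rfl fun a _ => ?_
    rw [← (mulRight_bijective₀ c hc).sum_comp]
    refine Finset.sum_congr rfl fun b _ => ?_
    simp only [mul_pow, mul_left_inj' (pow_ne_zero 3 hc), ite_mul, zero_mul]
  rw [e1]
  simp_rw [e4]
  rw [Finset.sum_comm]
  have e5 : ∀ l ∈ Lam η, ∑ c, (Fintype.card K : ℤ) ^ 2 *
      (W χ π (l.1 * c) * W χ π (l.2 * c) * W χ π c) = (Fintype.card K : ℤ) ^ 4 *
      ((univ.filter fun y => l.1 * π y + l.2 * π (y + 1) + 1 = 0).card - 1) := by
    intro l hl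
    simp only [Lam, mem_filter, mem_univ, true_and] at hl
    have h12 : l.1 ≠ l.2 := by
      intro h12
      rw [h12, ] at hl
      have : (1 : K) = 0 := by linear_combination hl.1 - hl.2
      exact one_ne_zero this
    rw [← Finset.mul_sum, B_eq h hπ h12]; ring
  rw [Finset.sum_congr rfl e5, ← Finset.mul_sum, Finset.sum_sub_distrib]
  have e6 : ((Sol π η).card : ℤ) =
      ∑ l ∈ Lam η, ((univ.filter fun y => l.1 * π y + l.2 * π (y + 1) + 1 = 0).card : ℤ) := by
    simp only [Sol, Lam, Finset.card_filter, Finset.sum_filter, Nat.cast_sum]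
    rw [Fintype.sum_prod_type]
    refine Finset.sum_congr rfl fun l _ => ?_
    split_ifs with hl
    · simp [hl]
    · simp [hl]
  rw [e6]
  simp only [sum_const, nsmul_eq_mul, mul_one]
  ring

omit [DecidableEq K] in
theorem sum_T (ε : K → ℤ) (hpm : ∀ y, ε y * ε y = 1) (h0 : ∑ y, ε y = 0) : ∑ η, T ε η = 0 := by
  simp only [T]
  rw [Finset.sum_comm]
  have : ∀ x, ∑ η, ∑ y, ε x * ε y * ε (η * x + (η + 1) * y) = Fintype.card K * ε x := by
    intro x
    rw [Finset.sum_comm, Finset.sum_eq_single x]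
    · have : ∀ η : K, η * x + (η + 1) * x = x := by
        intro η; linear_combination (norm := (ring_nf; reduce_mod_char!))
      simp [this, hpm]
    · intro y _ hy
      have hxy : x + y ≠ 0 := by rw [Ne, CharTwo.add_eq_zero]; exact Ne.symm hy
      have hb : Function.Bijective fun η : K => η * (x + y) + y :=
        (AddGroup.addRight_bijective y).comp (mulRight_bijective₀ _ hxy)
      have e : ∀ η : K, η * x + (η + 1) * y = η * (x + y) + y := by intro η; ring
      simp_rw [e]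
      rw [← Finset.mul_sum, hb.sum_comp ε, h0, mul_zero]
    · simp
  simp_rw [this]
  rw [← Finset.mul_sum, h0, mul_zero]

theorem T_eq_zero (ε : K → ℤ) (hpm : ∀ y, ε y * ε y = 1) (h0 : ∑ y, ε y = 0)
    (hle : ∀ η, η ≠ 0 → η + 1 ≠ 0 → T ε η ≤ 0) (η : K) : T ε η = 0 := by
  have hle' : ∀ η ∈ (univ : Finset K), T ε η ≤ 0 := by
    intro η _
    by_cases a0 : η = 0
    · simp [a0, T, mul_assoc, hpm, h0, ← Finset.mul_sum]
    by_cases a1 : η + 1 = 0
    · have : η = 1 := CharTwo.add_eq_zero.mp a1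
      have e : ∀ x y, ε x * ε y * ε x = ε y := by
        intro x y; rw [mul_comm (ε x), mul_assoc, hpm, mul_one]
      simp only [T, a1]
      simp [this, e, h0]
    exact hle η a0 a1
  exact (Finset.sum_eq_zero_iff_of_nonpos hle').mp (sum_T ε hpm h0) η (mem_univ η)

end Pool.Agent.P.MP_42ff57_nt
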