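import Pool.Agent.P.MP_42ff57_nt.Quad

namespace Pool.Agent.P.MP_42ff57_nt

open Finset

variable {K : Type*} [Field K] [Fintype K] [DecidableEq K]

def F (σ : K →+* K) (x : K) : K := x * σ (σ x) / σ x
def g (σ : K →+* K) (x : K) : K := F σ x + F σ (x + 1) + 1
noncomputable def eps (χ : AddChar K ℤ) (σ : K →+* K) (y : K) : ℤ :=
  if y = 0 then 1 else sgn χ σ y⁻¹

variable {χ : AddChar K ℤ} {σ : K →+* K}

omit [Fintype K] [DecidableEq K] in
theorem g_zero [CharP K 2] : g σ 0 = 0 := by
  simp [g, F, CharTwo.add_self_eq_zero]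

omit [Fintype K] [DecidableEq K] in
theorem g_add_one [CharP K 2] (x : K) : g σ (x + 1) = g σ x := by
  have : x + 1 + 1 = x := by rw [add_assoc, CharTwo.add_self_eq_zero, add_zero]
  simp only [g, this]; ring

omit [Fintype K] [DecidableEq K] in
theorem g_one [CharP K 2] : g σ 1 = 0 := by
  rw [← g_zero (σ := σ), ← g_add_one 0, zero_add]

omit [Fintype K] [DecidableEq K] in
theorem g_formula [CharP K 2] {x : K} (h0 : x ≠ 0) (h1 : x ≠ 1) :
    g σ x * (σ x * (σ x + 1)) = (x + σ x) * (σ x + σ (σ x)) := by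
  have two : (2 : K) = 0 := CharTwo.two_eq_zero
  have a0 : σ x ≠ 0 := by simpa using h0
  have a1 : σ x + 1 ≠ 0 := by
    rw [← map_one σ, ← map_add, map_ne_zero, Ne, CharTwo.add_eq_zero]; exact h1
  simp only [g, F, map_add, map_one]
  field_simp
  linear_combination (x * σ x * σ (σ x) + σ x) * two

omit [Fintype K] [DecidableEq K] in
theorem add_sigma_ne [CharP K 2] (hσ : Frob χ σ) {x : K} (h0 : x ≠ 0) (h1 : x ≠ 1) :
    x + σ x ≠ 0 := by
  rw [Ne, CharTwo.add_eq_zero]
  intro h
  rcases hσ.fix x h.symm with h | h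
  · exact h0 h
  · exact h1 h

omit [Fintype K] [DecidableEq K] in
theorem g_ne_zero [CharP K 2] (hσ : Frob χ σ) {x : K} (h0 : x ≠ 0) (h1 : x ≠ 1) : g σ x ≠ 0 := by
  intro h
  have h2 := g_formula (σ := σ) h0 h1
  have h3 := add_sigma_ne hσ h0 h1
  have h4 : σ x + σ (σ x) ≠ 0 := by rw [← map_add, map_ne_zero]; exact h3
  rw [h, zero_mul] at h2
  exact mul_ne_zero h3 h4 h2.symm

omit [Fintype K] [DecidableEq K] in
theorem e_formula [CharP K 2] (hσ : Frob χ σ) {x : K} (h0 : x ≠ 0) (h1 : x ≠ 1) :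
    (g σ x)⁻¹ * (x + σ x) * (σ x + σ (σ x)) = σ x * (σ x + 1) := by
  have h2 := g_formula (σ := σ) h0 h1
  have h3 := g_ne_zero hσ h0 h1
  rw [mul_assoc, ← h2, ← mul_assoc, inv_mul_cancel₀ h3, one_mul]

omit [Fintype K] [DecidableEq K] in
theorem M_of_e [CharP K 2] {b x : K} (h4 : σ x + σ (σ x) ≠ 0)
    (e : b * (x + σ x) * (σ x + σ (σ x)) = σ x * (σ x + 1)) : M σ b (x + σ x) = 1 := by
  have two : (2 : K) = 0 := CharTwo.two_eq_zero
  have e' := congrArg σ e
  simp only [map_mul, map_add, map_one] at e'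
  apply mul_left_cancel₀ h4
  simp only [M, map_add]
  linear_combination e + e' + (σ x ^ 2 + σ x * σ (σ x) + σ (σ x) ^ 2) * two

theorem eps_g [CharP K 2] (h : Good χ) (hσ : Frob χ σ) (x : K) : eps χ σ (g σ x) = 1 := by
  unfold eps
  split_ifs with hg
  · rfl
  have h0 : x ≠ 0 := by rintro rfl; exact hg g_zero
  have h1 : x ≠ 1 := by rintro rfl; exact hg g_one
  have h3 := add_sigma_ne hσ h0 h1
  have h4 : σ x + σ (σ x) ≠ 0 := by rw [← map_add, map_ne_zero]; exact h3
  rw [sgn_eq h hσ (M_of_e h4 (e_formula hσ h0 h1)), AddChar.map_add_eq_mul, hσ.inv, chi_mul_self]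

omit [Fintype K] [DecidableEq K] in
theorem apn_aux₁ [CharP K 2] {b x y : K} (hx : σ x ≠ 0) (hx1 : σ x + 1 ≠ 0)
    (hY : x + σ x ≠ 0)
    (e : b * (x + σ x) * (σ x + σ (σ x)) = σ x * (σ x + 1))
    (p1 : b * (x + σ x) * (σ y + σ (σ y)) = σ x * σ y)
    (p2 : b * (y + σ y) * (σ x + σ (σ x)) = (σ x + 1) * (σ y + 1)) : y = x + 1 := by
  have two : (2 : K) = 0 := CharTwo.two_eq_zero
  have hY' : σ x + σ (σ x) ≠ 0 := by rw [← map_add, map_ne_zero]; exact hY
  -- `(σ y + σ σ y) (σ x + 1) = σ y (σ x + σ σ x)`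
  have q1 : (σ y + σ (σ y)) * (σ x + 1) = σ y * (σ x + σ (σ x)) := by
    apply mul_left_cancel₀ hx
    linear_combination (σ x + σ (σ x)) * p1 - (σ y + σ (σ y)) * e
  have q2 : (y + σ y) * σ x = (σ y + 1) * (x + σ x) := by
    apply mul_left_cancel₀ hx1
    linear_combination (x + σ x) * p2 - (y + σ y) * e
  have q2' := congrArg σ q2
  simp only [map_mul, map_add, map_one] at q2'
  have q3 : σ y + σ (σ y) = σ x + σ (σ x) := by
    linear_combination q1 + q2'
  rw [q3] at q1
  have q4 : σ y = σ x + 1 := by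
    apply mul_left_cancel₀ hY'
    linear_combination -q1
  apply σ.injective
  rw [q4, map_add, map_one]

omit [Fintype K] [DecidableEq K] in
theorem apn_aux₂ [CharP K 2] (hσ : Frob χ σ) {b x y : K} (x0 : x ≠ 0) (x1 : x ≠ 1)
    (ex : b * (x + σ x) * (σ x + σ (σ x)) = σ x * (σ x + 1))
    (ey : b * (y + σ y) * (σ y + σ (σ y)) = σ y * (σ y + 1))
    (hs : b * (x + σ x) * (σ y + σ (σ y)) + b * (y + σ y) * (σ x + σ (σ x)) = σ x + σ y + 1) :
    y = x + 1 := by
  have two : (2 : K) = 0 := CharTwo.two_eq_zero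
  have a0 : σ x ≠ 0 := by simpa using x0
  have a1 : σ x + 1 ≠ 0 := by
    rw [← map_one σ, ← map_add, map_ne_zero, Ne, CharTwo.add_eq_zero]; exact x1
  have hY := add_sigma_ne hσ x0 x1
  have hq : (b * (x + σ x) * (σ y + σ (σ y)) + σ x * σ y) *
      (b * (x + σ x) * (σ y + σ (σ y)) + (σ x + 1) * (σ y + 1)) = 0 := by
    linear_combination (norm := (ring_nf; reduce_mod_char!))
      b * (x + σ x) * (σ y + σ (σ y)) * hs + b * (y + σ y) * (σ y + σ (σ y)) * ex +
        σ x * (σ x + 1) * ey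
  rcases mul_eq_zero.mp hq with h | h
  · refine apn_aux₁ a0 a1 hY ex (CharTwo.add_eq_zero.mp h) ?_
    linear_combination (norm := (ring_nf; reduce_mod_char!)) hs + h
  · have e1 : σ (x + 1) = σ x + 1 := by rw [map_add, map_one]
    have e2 : σ (y + 1) = σ y + 1 := by rw [map_add, map_one]
    have e3 : σ (σ x + 1) = σ (σ x) + 1 := by rw [map_add, map_one]
    have e4 : σ (σ y + 1) = σ (σ y) + 1 := by rw [map_add, map_one]
    have : y + 1 = x + 1 + 1 := by
      refine apn_aux₁ (σ := σ) (b := b) ?_ ?_ ?_ ?_ ?_ ?_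
      · rw [e1]; exact a1
      · rw [e1, add_assoc, CharTwo.add_self_eq_zero, add_zero]; exact a0
      · rw [e1]; intro h'; apply hY; linear_combination (norm := (ring_nf; reduce_mod_char!)) h'
      · rw [e1, e3]; linear_combination (norm := (ring_nf; reduce_mod_char!)) ex
      · rw [e1, e2, e4]; linear_combination (norm := (ring_nf; reduce_mod_char!)) h
      · rw [e1, e2, e3]; linear_combination (norm := (ring_nf; reduce_mod_char!)) hs + h
    exact add_right_cancel this

omit [Fintype K] [DecidableEq K] in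
/-- The derivative of the Kasami function is two-to-one. -/
theorem g_inj [CharP K 2] (hσ : Frob χ σ) {x y : K} (hxy : g σ x = g σ y) :
    y = x ∨ y = x + 1 := by
  have two : (2 : K) = 0 := CharTwo.two_eq_zero
  have hz : ∀ z, g σ z = 0 → z = 0 ∨ z = 1 := by
    intro z hz
    by_contra hc
    push Not at hc
    exact g_ne_zero hσ hc.1 hc.2 hz
  by_cases hg : g σ x = 0
  · rcases hz x hg with rfl | rfl <;> rcases hz y (hxy ▸ hg) with rfl | rfl <;>
      simp [CharTwo.add_self_eq_zero]
  have x0 : x ≠ 0 := by rintro rfl; exact hg g_zero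
  have x1 : x ≠ 1 := by rintro rfl; exact hg g_one
  have y0 : y ≠ 0 := by rintro rfl; exact hg (hxy.trans g_zero)
  have y1 : y ≠ 1 := by rintro rfl; exact hg (hxy.trans g_one)
  have ex := e_formula hσ x0 x1
  have ey := e_formula hσ y0 y1
  rw [← hxy] at ey
  set b := (g σ x)⁻¹
  have hx : σ x + σ (σ x) ≠ 0 := by
    rw [← map_add, map_ne_zero]; exact add_sigma_ne hσ x0 x1
  have hy : σ y + σ (σ y) ≠ 0 := by
    rw [← map_add, map_ne_zero]; exact add_sigma_ne hσ y0 y1
  have mx := M_of_e hx ex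
  have my := M_of_e hy ey
  simp only [M, map_add] at mx my
  have hfix := hσ.fix (b * (x + σ x) * (σ y + σ (σ y)) + b * (y + σ y) * (σ x + σ (σ x)) +
    σ x + σ y) (by
      simp only [map_add, map_mul]
      linear_combination (norm := (ring_nf; reduce_mod_char!))
        (σ y + σ (σ y)) * mx + (σ x + σ (σ x)) * my)
  rcases hfix with h | h
  · left
    have e2 : σ (y + 1) = σ y + 1 := by rw [map_add, map_one]
    have e4 : σ (σ y + 1) = σ (σ y) + 1 := by rw [map_add, map_one]
    have : y + 1 = x + 1 := by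
      refine apn_aux₂ hσ (b := b) x0 x1 ex ?_ ?_
      · rw [e2, e4]; linear_combination (norm := (ring_nf; reduce_mod_char!)) ey
      · rw [e2, e4]; linear_combination (norm := (ring_nf; reduce_mod_char!)) h
    exact add_right_cancel this
  · right
    refine apn_aux₂ hσ (b := b) x0 x1 ex ey ?_
    linear_combination (norm := (ring_nf; reduce_mod_char!)) h

theorem card_image_g [CharP K 2] (hσ : Frob χ σ) :
    Fintype.card K ≤ 2 * (univ.image (g σ)).card := by
  refine Finset.card_le_mul_card_image univ 2 fun c hc => ?_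
  obtain ⟨x, -, rfl⟩ := Finset.mem_image.mp hc
  have : (univ.filter fun y => g σ y = g σ x) ⊆ {x, x + 1} := by
    intro y hy
    simp only [mem_filter, mem_univ, true_and] at hy
    simpa using g_inj hσ hy.symm
  exact (Finset.card_le_card this).trans Finset.card_le_two

/-- If the sign function has sum zero, the set of derivative values is where it equals one. -/
theorem mem_image_g_iff [CharP K 2] (h : Good χ) (hσ : Frob χ σ) (hsum : ∑ y, eps χ σ y = 0)
    (y : K) : y ∈ univ.image (g σ) ↔ eps χ σ y = 1 := by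
  have hsub : univ.image (g σ) ⊆ univ.filter fun y => eps χ σ y = 1 := by
    intro y hy
    obtain ⟨x, -, rfl⟩ := Finset.mem_image.mp hy
    simp [eps_g h hσ]
  have hpm : ∀ y, eps χ σ y = 1 ∨ eps χ σ y = -1 := by
    intro y; unfold eps; split_ifs
    · exact Or.inl rfl
    · exact sgn_cases h hσ _
  have hc : 2 * ((univ.filter fun y => eps χ σ y = 1).card : ℤ) = Fintype.card K := by
    have : ∀ y, (eps χ σ y + 1) = 2 * (if eps χ σ y = 1 then 1 else 0) := by
      intro y; rcases hpm y with h1 | h1 <;> simp [h1]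
    have h2 : ∑ y, (eps χ σ y + 1) = Fintype.card K := by
      rw [Finset.sum_add_distrib, hsum]; simp
    rw [← h2]
    simp_rw [this]
    rw [← Finset.mul_sum]
    simp
  have h3 := card_image_g hσ
  have h4 : univ.image (g σ) = univ.filter fun y => eps χ σ y = 1 := by
    refine Finset.eq_of_subset_of_card_le hsub ?_
    have : (Fintype.card K : ℤ) ≤ 2 * (univ.image (g σ)).card := by exact_mod_cast h3
    have : ((univ.filter fun y => eps χ σ y = 1).card : ℤ) ≤ (univ.image (g σ)).card := by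
      linarith
    exact_mod_cast this
  rw [h4]; simp

end Pool.Agent.P.MP_42ff57_nt
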