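import Pool.Agent.P.MP_42ff57_nt.Count

namespace Pool.Agent.P.MP_42ff57_nt

open Finset

variable {K : Type*} [Field K] [Fintype K] [DecidableEq K] [CharP K 2]

theorem count_of_T (Δ : Finset K) (ε : K → ℤ) (hpm : ∀ y, ε y = 1 ∨ ε y = -1)
    (hΔ : ∀ y, y ∈ Δ ↔ ε y = 1) (h0 : ∑ y, ε y = 0) (hT : ∀ η, T ε η = 0) {v₁ v₂ : K}
    (h₁ : v₁ ≠ 0) (h₂ : v₂ ≠ 0) (h₁₂ : v₁ ≠ v₂) :
    8 * ((Δ ×ˢ Δ ×ˢ Δ).filter
      fun p => v₁ * p.1 + v₂ * p.2.1 + (v₁ + v₂) * p.2.2 = 0).card = Fintype.card K ^ 2 := by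
  have h3 : v₁ + v₂ ≠ 0 := by rwa [Ne, CharTwo.add_eq_zero]
  set η := v₁ / (v₁ + v₂) with hη
  have hη1 : η + 1 = v₂ / (v₁ + v₂) := by
    rw [hη]; field_simp; linear_combination (norm := (ring_nf; reduce_mod_char!))
  have a0 : η ≠ 0 := div_ne_zero h₁ h3
  have a1 : η + 1 ≠ 0 := hη1 ▸ div_ne_zero h₂ h3
  have hz : ∀ x y z, v₁ * x + v₂ * y + (v₁ + v₂) * z = 0 ↔ z = η * x + (η + 1) * y := by
    intro x y z
    rw [hη1, hη, CharTwo.add_eq_zero, div_mul_eq_mul_div, div_mul_eq_mul_div, ← add_div,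
      eq_div_iff h3, mul_comm z, eq_comm]
  have hind : ∀ y, (if y ∈ Δ then (2 : ℤ) else 0) = 1 + ε y := by
    intro y
    rcases hpm y with h | h <;> simp [hΔ, h]
  have e1 : (8 * ((Δ ×ˢ Δ ×ˢ Δ).filter
      fun p => v₁ * p.1 + v₂ * p.2.1 + (v₁ + v₂) * p.2.2 = 0).card : ℤ) =
      ∑ x, ∑ y, (1 + ε x) * (1 + ε y) * (1 + ε (η * x + (η + 1) * y)) := by
    have : (Δ ×ˢ Δ ×ˢ Δ).filter (fun p => v₁ * p.1 + v₂ * p.2.1 + (v₁ + v₂) * p.2.2 = 0) =
        univ.filter fun p : K × K × K =>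
          (p.1 ∈ Δ ∧ p.2.1 ∈ Δ ∧ p.2.2 ∈ Δ) ∧ p.2.2 = η * p.1 + (η + 1) * p.2.1 := by
      ext p; simp [hz]
    rw [this, Finset.card_filter, Nat.cast_sum, Finset.mul_sum, Fintype.sum_prod_type]
    refine Finset.sum_congr rfl fun x _ => ?_
    rw [Fintype.sum_prod_type]
    refine Finset.sum_congr rfl fun y _ => ?_
    rw [Finset.sum_eq_single (η * x + (η + 1) * y)]
    · simp only [← hind, and_true]
      by_cases b1 : x ∈ Δ <;> by_cases b2 : y ∈ Δ <;> by_cases b3 : η * x + (η + 1) * y ∈ Δ <;>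
        simp [b1, b2, b3]
    · intro z _ hz; simp [hz]
    · simp
  have s1 : ∀ x, ∑ y, ε (η * x + (η + 1) * y) = 0 := by
    intro x
    have hb : Function.Bijective fun y : K => η * x + (η + 1) * y :=
      (AddGroup.addLeft_bijective _).comp (mulLeft_bijective₀ _ a1)
    rw [hb.sum_comp ε, h0]
  have s2 : ∀ y, ∑ x, ε (η * x + (η + 1) * y) = 0 := by
    intro y
    have hb : Function.Bijective fun x : K => η * x + (η + 1) * y :=
      (AddGroup.addRight_bijective _).comp (mulLeft_bijective₀ _ a0)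
    rw [hb.sum_comp ε, h0]
  have e2 : ∀ x y, (1 + ε x) * (1 + ε y) * (1 + ε (η * x + (η + 1) * y)) =
      1 + ε x + (1 + ε x) * ε y + (1 + ε x) * ε (η * x + (η + 1) * y) +
        ε y * ε (η * x + (η + 1) * y) + ε x * ε y * ε (η * x + (η + 1) * y) := by
    intro x y; ring
  have s3 : ∑ x, ∑ y, ε y * ε (η * x + (η + 1) * y) = 0 := by
    rw [Finset.sum_comm]
    simp [← Finset.mul_sum, s2]
  have s4 := hT η
  unfold T at s4
  simp only [e2, Finset.sum_add_distrib, ← Finset.mul_sum, h0, s1, s3, s4] at e1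
  simp only [sum_const, card_univ, nsmul_eq_mul, mul_one, mul_zero, add_zero, ← Finset.mul_sum,
    h0] at e1
  rw [sq]
  exact_mod_cast e1

theorem main_odd {n k : ℕ} (hn : Fintype.card K = 2 ^ n) (hk : Odd k) (hc : Nat.Coprime k n)
    {v₁ v₂ : K} (h₁ : v₁ ≠ 0) (h₂ : v₂ ≠ 0) (h₁₂ : v₁ ≠ v₂) :
    8 * ((univ.image (g (iterateFrobenius K 2 k)) ×ˢ univ.image (g (iterateFrobenius K 2 k)) ×ˢ
      univ.image (g (iterateFrobenius K 2 k))).filter
      fun p => v₁ * p.1 + v₂ * p.2.1 + (v₁ + v₂) * p.2.2 = 0).card = Fintype.card K ^ 2 := by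
  obtain ⟨χ, h⟩ := exists_good (K := K)
  have hn1 : 1 ≤ n := by
    rcases Nat.eq_zero_or_pos n with rfl | h
    · have := Fintype.one_lt_card (α := K); omega
    · exact h
  obtain ⟨e, e', he, he', h1, h2⟩ := exists_exp hn1 hk hc
  set σ := iterateFrobenius K 2 k
  have hσ : ∀ x, σ x = x ^ 2 ^ k := fun x => iterateFrobenius_def ..
  let π : K →*₀ K := powMonoidWithZeroHom (n := e) (by omega)
  have hπe : ∀ x, π x = x ^ e := fun x => rfl
  have hz : ∀ z : K, z ^ (4 ^ n - 1 + 1) = z := by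
    intro z
    have : 1 ≤ 4 ^ n := Nat.one_le_pow _ _ (by norm_num)
    rw [Nat.sub_add_cancel this, pow_four_pow hn]
  have hπ : Function.Injective π := by
    have h5 : ∀ z : K, (z ^ e) ^ e' = z := by
      intro z
      rw [← pow_mul, pow_congr (hz z) h2 (Nat.mul_pos he he') le_rfl, pow_one]
    intro x y hxy
    rw [← h5 x, ← h5 y, ← hπe, ← hπe, hxy]
  have h3 : ∀ x, π x ^ 3 = x * σ x := by
    intro x
    rw [hπe, hσ, ← pow_mul, mul_comm e, pow_congr (hz _) h1 (by omega) (Nat.le_add_left _ _),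
      pow_succ']
  have hfix : ∀ x, σ x = x → x = 0 ∨ x = 1 := by
    intro x hx
    have it : ∀ j (x : K), (fun x : K => x ^ 2)^[j] x = x ^ 2 ^ j := by
      intro j x; rw [pow_iterate]
    have p1 : Function.IsPeriodicPt (fun x : K => x ^ 2) k x := by
      rw [Function.IsPeriodicPt, Function.IsFixedPt, it, ← hσ, hx]
    have p2 : Function.IsPeriodicPt (fun x : K => x ^ 2) n x := by
      rw [Function.IsPeriodicPt, Function.IsFixedPt, it, ← hn, FiniteField.pow_card]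
    have p3 := p1.gcd p2
    rw [hc.gcd_eq_one] at p3
    exact (frob_two h).fix x p3
  have hF : Frob χ σ := ⟨fun x => by rw [hσ, h.pow], hfix⟩
  have hroot : ∀ x, x ^ 3 = 1 → σ x = x ^ 2 := by
    intro x hx
    obtain ⟨c, hc⟩ : 3 ∣ 2 ^ k + 1 := by simpa using hk.nat_add_dvd_pow_add_pow 2 1
    have h4 : x ^ (2 ^ k + 1) = 1 := by rw [hc, pow_mul, hx, one_pow]
    rw [hσ]
    rw [pow_succ] at h4
    linear_combination x ^ 2 * h4 - x ^ 2 ^ k * hx
  have hs := star (π := π) h (eps χ σ) (by simp [eps]) fun y hy =>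
    dd h hF hn (swap_F0 h hF hπ h3) (swap_F1 h hn hk he he' h1 h2 hσ hπe hπ h3) hy
  have h0 := sum_eps h _ hs
  have hpm : ∀ y, eps χ σ y = 1 ∨ eps χ σ y = -1 := by
    intro y; unfold eps; split_ifs
    · exact Or.inl rfl
    · exact sgn_cases h hF _
  refine count_of_T _ (eps χ σ) hpm (mem_image_g_iff h hF h0) h0 ?_ h₁ h₂ h₁₂
  refine T_eq_zero _ (fun y => by rcases hpm y with h | h <;> simp [h]) h0 fun η a0 a1 => ?_
  rw [T_formula h hπ _ hs]
  have := card_Sol_le hfix hroot h3 a0 a1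
  refine mul_nonpos_of_nonneg_of_nonpos (by positivity) ?_
  rw [sub_nonpos]
  exact_mod_cast this

omit [Fintype K] [DecidableEq K] [CharP K 2] in
theorem F_eq {σ : K →+* K} {k : ℕ} (hσ : ∀ x, σ x = x ^ 2 ^ k) (x : K) :
    F σ x = x ^ (4 ^ k - 2 ^ k + 1) := by
  by_cases hx : x = 0
  · simp [F, hx]
  have h1 : 2 ^ k ≤ 4 ^ k := Nat.pow_le_pow_left (by norm_num) k
  have h2 : 2 ^ k * 2 ^ k = 4 ^ k := by rw [← mul_pow]; norm_num
  rw [F, hσ, hσ, ← pow_mul, h2, div_eq_iff (pow_ne_zero _ hx), ← pow_add, ← pow_succ']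
  congr 1; omega

omit [CharP K 2] in
theorem main {n k : ℕ} (hc : Nat.Coprime k n) (hn : Fintype.card K = 2 ^ n)
    {v₁ v₂ : K} (h₁ : v₁ ≠ 0) (h₂ : v₂ ≠ 0) (h₁₂ : v₁ ≠ v₂) (Δ : Finset K)
    (hΔ : Δ = univ.image fun b : K =>
      b ^ (4 ^ k - 2 ^ k + 1) + (b + 1) ^ (4 ^ k - 2 ^ k + 1) + 1) :
    ((Δ ×ˢ Δ ×ˢ Δ).filter
      fun p => v₁ * p.1 + v₂ * p.2.1 + (v₁ + v₂) * p.2.2 = 0).card = 2 ^ (2 * n - 3) := by
  have : CharP K 2 := charP_of_card_eq_prime_pow hn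
  obtain ⟨j, hj, hjc, hjk⟩ : ∃ j, Odd j ∧ Nat.Coprime j n ∧ ∀ x : K, x ^ 2 ^ j = x ^ 2 ^ k := by
    rcases Nat.even_or_odd k with hk | hk
    · refine ⟨k + n, ?_, by simpa using hc, fun x => ?_⟩
      · refine hk.add_odd ?_
        rw [← Nat.not_even_iff_odd]
        intro hn'
        have := Nat.dvd_gcd hk.two_dvd hn'.two_dvd
        rw [hc.gcd_eq_one] at this
        omega
      · rw [pow_add, pow_mul, ← hn, FiniteField.pow_card]
    · exact ⟨k, hk, hc, fun _ => rfl⟩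
  have h8 := main_odd hn hj hjc h₁ h₂ h₁₂
  have hg : g (iterateFrobenius K 2 j) = fun b : K =>
      b ^ (4 ^ k - 2 ^ k + 1) + (b + 1) ^ (4 ^ k - 2 ^ k + 1) + 1 := by
    funext b
    have hσ : ∀ x, iterateFrobenius K 2 j x = x ^ 2 ^ k := fun x => by
      rw [iterateFrobenius_def, hjk]
    rw [g, F_eq hσ, F_eq hσ]
  rw [hg, ← hΔ, hn] at h8
  have hn2 : 2 ≤ n := by
    have : 2 < Fintype.card K :=
      Fintype.two_lt_card_iff.mpr ⟨0, v₁, v₂, h₁.symm, h₂.symm, h₁₂⟩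
    rw [hn] at this
    by_contra hc
    have : n = 0 ∨ n = 1 := by omega
    rcases this with rfl | rfl <;> omega
  have : (2 ^ n) ^ 2 = 8 * 2 ^ (2 * n - 3) := by
    rw [← pow_mul, show 8 = 2 ^ 3 from rfl, ← pow_add]; congr 1; omega
  omega

end Pool.Agent.P.MP_42ff57_nt
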