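import Pool.Agent.P.MP_42ff57_nt.Char

namespace Pool.Agent.P.MP_42ff57_nt

open Finset

variable {K : Type*} [Field K] [Fintype K] [DecidableEq K]

/-- A generator of the Galois group over the prime field preserving the character. -/
structure Frob (χ : AddChar K ℤ) (σ : K →+* K) : Prop where
  inv : ∀ x, χ (σ x) = χ x
  fix : ∀ x, σ x = x → x = 0 ∨ x = 1

def D (σ : K →+* K) (P : K × K) : K := P.1 * σ P.2 + σ P.1 * P.2
def N1 (P : K × K) : K := P.1 ^ 2 + P.1 * P.2 + P.2 ^ 2
def N0 (P : K × K) : K := P.1 * P.2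
def M (σ : K →+* K) (b Y : K) : K := σ b * σ (σ Y) + σ Y + b * Y
def F1 (χ : AddChar K ℤ) (σ : K →+* K) (b : K) : ℤ := ∑ P : K × K, χ (b * D σ P + N1 P)
def F0 (χ : AddChar K ℤ) (σ : K →+* K) (b : K) : ℤ := ∑ P : K × K, χ (b * D σ P + N0 P)
def V (σ : K →+* K) (b : K) : Finset K := univ.filter fun Y => M σ b Y = 0

noncomputable def sgn (χ : AddChar K ℤ) (σ : K →+* K) (b : K) : ℤ :=
  if h : ∃ Y, M σ b Y = 1 then χ h.choose else 0

variable {χ : AddChar K ℤ} {σ : K →+* K}

omit [Fintype K] [DecidableEq K] in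
theorem M_add (b Y Z : K) : M σ b (Y + Z) = M σ b Y + M σ b Z := by
  simp only [M, map_add]; ring

omit [DecidableEq K] in
theorem sigma_bij (σ : K →+* K) : Function.Bijective σ :=
  Finite.injective_iff_bijective.mp σ.injective

theorem inner_sum (h : Good χ) (hσ : Frob χ σ) (b Y c : K) :
    ∑ X, χ (b * (X * σ Y + σ X * Y) + X * Y + σ X * c) =
      if M σ b Y + c = 0 then (Fintype.card K : ℤ) else 0 := by
  rw [← h.orth, ← (sigma_bij σ).sum_comp (fun X => χ ((M σ b Y + c) * X))]
  refine Finset.sum_congr rfl fun X _ => ?_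
  have e1 : b * (X * σ Y + σ X * Y) + X * Y + σ X * c =
      b * X * σ Y + (X * Y + σ X * (b * Y + c)) := by ring
  have e2 : (M σ b Y + c) * σ X = σ (b * X * σ Y) + (σ (X * Y) + σ X * (b * Y + c)) := by
    simp only [M, map_mul]; ring
  rw [e1, e2]
  simp only [AddChar.map_add_eq_mul, hσ.inv]

theorem F0_eq (h : Good χ) (hσ : Frob χ σ) (b : K) :
    F0 χ σ b = Fintype.card K * (V σ b).card := by
  unfold F0
  rw [Fintype.sum_prod_type_right]
  have : ∀ Y, ∑ X, χ (b * D σ (X, Y) + N0 (X, Y)) =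
      if M σ b Y = 0 then (Fintype.card K : ℤ) else 0 := by
    intro Y
    have := inner_sum h hσ b Y 0
    simpa [D, N0] using this
  simp_rw [this]
  rw [← Finset.sum_filter]
  simp [V, mul_comm]

theorem F1_eq [CharP K 2] (h : Good χ) (hσ : Frob χ σ) (b : K) :
    F1 χ σ b = Fintype.card K * ∑ Y with M σ b Y = 1, χ Y := by
  unfold F1
  rw [Fintype.sum_prod_type_right]
  have : ∀ Y, ∑ X, χ (b * D σ (X, Y) + N1 (X, Y)) =
      if M σ b Y = 1 then (Fintype.card K : ℤ) * χ Y else 0 := by
    intro Y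
    have h1 := inner_sum h hσ b Y 1
    have h2 : ∀ X, χ (b * D σ (X, Y) + N1 (X, Y)) =
        χ (b * (X * σ Y + σ X * Y) + X * Y + σ X * 1) * χ Y := by
      intro X
      have e1 : b * D σ (X, Y) + N1 (X, Y) =
          b * (X * σ Y + σ X * Y) + X * Y + X ^ 2 + Y ^ 2 := by simp only [D, N1]; ring
      rw [e1]
      simp only [AddChar.map_add_eq_mul, h.sq, mul_one, hσ.inv]
    simp_rw [h2]
    rw [← Finset.sum_mul, h1]
    simp only [CharTwo.add_eq_zero]
    split_ifs <;> simp
  simp_rw [this]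
  rw [← Finset.sum_filter, Finset.mul_sum]

omit [Fintype K] [DecidableEq K] in
theorem chi_of_ker [CharP K 2] (h : Good χ) (hσ : Frob χ σ) {b v : K} (hv : M σ b v = 0) :
    χ v = 1 := by
  have h1 : χ (σ v * M σ b v) = 1 := by rw [hv]; simp
  have e : σ v * M σ b v = σ (b * v * σ v) + (b * v * σ v + (σ v) ^ 2) := by
    simp only [M, map_mul]; ring
  rw [e, AddChar.map_add_eq_mul, AddChar.map_add_eq_mul, hσ.inv, h.sq, hσ.inv, ← mul_assoc,
    chi_mul_self, one_mul] at h1
  exact h1

omit [Fintype K] [DecidableEq K] in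
theorem chi_sol [CharP K 2] (h : Good χ) (hσ : Frob χ σ) {b Y Z : K} (hY : M σ b Y = 1)
    (hZ : M σ b Z = 1) : χ Y = χ Z := by
  have h1 : M σ b (Y + Z) = 0 := by rw [M_add, hY, hZ, CharTwo.add_self_eq_zero]
  have h2 := chi_of_ker h hσ h1
  rw [AddChar.map_add_eq_mul] at h2
  calc χ Y = χ Y * (χ Z * χ Z) := by rw [chi_mul_self, mul_one]
    _ = χ Z := by rw [← mul_assoc, h2, one_mul]

theorem sgn_eq [CharP K 2] (h : Good χ) (hσ : Frob χ σ) {b Y : K} (hY : M σ b Y = 1) :
    sgn χ σ b = χ Y := by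
  have hex : ∃ Y, M σ b Y = 1 := ⟨Y, hY⟩
  unfold sgn
  rw [dif_pos hex]
  exact chi_sol h hσ hex.choose_spec hY

theorem sum_sol [CharP K 2] (h : Good χ) (hσ : Frob χ σ) {b Y : K} (hY : M σ b Y = 1) :
    ∑ Z with M σ b Z = 1, χ Z = (V σ b).card * χ Y := by
  have h1 : ∑ Z with M σ b Z = 1, χ Z = ∑ Z with M σ b Z = 1, χ Y :=
    Finset.sum_congr rfl fun Z hZ => chi_sol h hσ (by simpa using hZ) hY
  rw [h1, Finset.sum_const, nsmul_eq_mul]
  congr 2
  refine Finset.card_bij (fun Z _ => Z + Y) ?_ ?_ ?_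
  · intro Z hZ
    simp only [mem_filter, mem_univ, true_and] at hZ
    simp [V, M_add, hZ, hY, CharTwo.add_self_eq_zero]
  · intro a _ c _ hac; exact add_right_cancel hac
  · intro v hv
    simp only [V, mem_filter, mem_univ, true_and] at hv
    refine ⟨v + Y, by simp [M_add, hv, hY], ?_⟩
    rw [add_assoc, CharTwo.add_self_eq_zero, add_zero]

theorem card_V_le [CharP K 2] (hσ : Frob χ σ) (b : K) : (V σ b).card ≤ 4 := by
  by_cases hex : ∃ v ∈ V σ b, v ≠ 0
  swap
  · push Not at hex
    have : V σ b ⊆ {0} := fun v hv => by simp [hex v hv]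
    exact (Finset.card_le_card this).trans (by simp)
  obtain ⟨v, hv, hv0⟩ := hex
  have hv' : M σ b v = 0 := by simpa [V] using hv
  have hb : b ≠ 0 := by
    rintro rfl
    simp only [M, map_zero, zero_mul, zero_add, add_zero, map_eq_zero] at hv'
    exact hv0 hv'
  have two : (2 : K) = 0 := CharTwo.two_eq_zero
  let β : K → K := fun w => b * (v * σ w + σ v * w)
  have hβ : ∀ w ∈ V σ b, β w ∈ ({0, 1} : Finset K) := by
    intro w hw
    have hw' : M σ b w = 0 := by simpa [V] using hw
    have : σ (β w) = β w := by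
      simp only [β, map_mul, map_add]
      simp only [M] at hv' hw'
      linear_combination σ v * hw' + σ w * hv' - (σ v * σ w + b * (v * σ w + σ v * w)) * two
    simpa using hσ.fix _ this
  have hfib : ∀ c ∈ ({0, 1} : Finset K), ((V σ b).filter fun w => β w = c).card ≤ 2 := by
    intro c _
    by_cases hne : ((V σ b).filter fun w => β w = c).Nonempty
    swap
    · rw [Finset.not_nonempty_iff_eq_empty] at hne; simp [hne]
    obtain ⟨w, hw⟩ := hne
    have hsub : ((V σ b).filter fun w => β w = c) ⊆ {w, w + v} := by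
      intro u hu
      simp only [mem_filter] at hw hu
      have h1 : β u = β w := hu.2.trans hw.2.symm
      have h2 : v * σ (u + w) = σ v * (u + w) := by
        have := mul_left_cancel₀ hb h1
        rw [map_add]
        linear_combination this + (v * σ w - σ v * u) * two
      have hσv : σ v ≠ 0 := by simpa using hv0
      have h3 : σ ((u + w) / v) = (u + w) / v := by
        rw [map_div₀]; field_simp; linear_combination h2
      rcases hσ.fix _ h3 with h4 | h4
      · have : u + w = 0 := by simpa [hv0] using h4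
        rw [CharTwo.add_eq_zero] at this
        simp [this]
      · rw [div_eq_one_iff_eq hv0] at h4
        have : u = w + v := by linear_combination h4 - w * two
        simp [this]
    exact (Finset.card_le_card hsub).trans Finset.card_le_two
  have := Finset.card_le_mul_card_image_of_maps_to hβ 2 hfib
  exact this.trans (by have := @Finset.card_le_two K _ 0 1; omega)

theorem card_V_dvd (b : K) : (V σ b).card ∣ Fintype.card K := by
  let φ : K →+ K := AddMonoidHom.mk' (M σ b) (M_add b)
  have h1 := AddSubgroup.card_addSubgroup_dvd_card φ.ker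
  rw [Nat.card_eq_fintype_card, Nat.card_eq_fintype_card] at h1
  convert h1
  rw [Fintype.card_subtype]
  congr 1
  ext Y
  simp [V, φ]

theorem card_V_cases [CharP K 2] (hσ : Frob χ σ) {n : ℕ} (hn : Fintype.card K = 2 ^ n) (b : K) :
    (V σ b).card = 1 ∨ (V σ b).card = 2 ∨ (V σ b).card = 4 := by
  have h1 := card_V_le hσ b
  have h2 := card_V_dvd (σ := σ) b
  rw [hn, Nat.dvd_prime_pow Nat.prime_two] at h2
  obtain ⟨j, -, hj⟩ := h2
  rw [hj] at h1 ⊢
  have : j ≤ 2 := by
    by_contra hc
    have : 2 ^ 3 ≤ 2 ^ j := Nat.pow_le_pow_right (by norm_num) (by omega)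
    omega
  interval_cases j <;> simp

/-- A sum of an invariant function is congruent modulo three to the sum over the fixed points of
an order-three permutation. -/
theorem sum_mod_three {α : Type*} [Fintype α] [DecidableEq α] (τ : α → α)
    (hτ : ∀ x, τ (τ (τ x)) = x) (f : α → ℤ) (hf : ∀ x, f (τ x) = f x) :
    ∑ x, f x ≡ ∑ x with τ x = x, f x [ZMOD 3] := by
  have : Fact (Nat.Prime 3) := ⟨Nat.prime_three⟩
  rw [← Finset.sum_fiberwise_of_maps_to (s := univ) (t := univ.image f) (g := f)
      (fun x _ => Finset.mem_image_of_mem f (mem_univ x)),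
    ← Finset.sum_fiberwise_of_maps_to (s := univ.filter fun x => τ x = x) (t := univ.image f)
      (g := f) (fun x _ => Finset.mem_image_of_mem f (mem_univ x))]
  refine Int.ModEq.sum fun c _ => ?_
  have e1 : ∀ s : Finset α, ∑ x ∈ s with f x = c, f x = (s.filter fun x => f x = c).card * c := by
    intro s
    rw [Finset.sum_congr rfl (g := fun _ => c) (fun x hx => (Finset.mem_filter.mp hx).2)]
    simp
  rw [e1, e1]
  refine Int.ModEq.mul_right _ ?_
  let τ' : Function.End {x // f x = c} := fun x => ⟨τ x.1, (hf _).trans x.2⟩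
  have h3 : τ' ^ 3 ^ 1 = 1 := by
    funext x
    exact Subtype.ext (hτ x.1)
  have h4 := Equiv.Perm.card_fixedPoints_modEq h3
  rw [Fintype.card_subtype] at h4
  have h5 : Fintype.card τ'.fixedPoints =
      ((univ.filter fun x => τ x = x).filter fun x => f x = c).card := by
    rw [← Fintype.card_coe]
    refine Fintype.card_congr
      { toFun := fun x => ⟨x.1.1, by
          simp only [mem_filter, mem_univ, true_and]
          exact ⟨congrArg Subtype.val x.2, x.1.2⟩⟩
        invFun := fun x => ⟨⟨x.1, (Finset.mem_filter.mp x.2).2⟩,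
          Subtype.ext (Finset.mem_filter.mp (Finset.mem_filter.mp x.2).1).2⟩
        left_inv := fun x => rfl
        right_inv := fun x => rfl }
  rw [h5] at h4
  exact Int.natCast_modEq_iff.mpr h4

theorem F1_mod [CharP K 2] (b : K) : F1 χ σ b ≡ 1 [ZMOD 3] := by
  have two : (2 : K) = 0 := CharTwo.two_eq_zero
  have := sum_mod_three (fun P : K × K => (P.2, P.1 + P.2)) ?_
    (fun P => χ (b * D σ P + N1 P)) ?_
  · refine this.trans ?_
    have : (univ.filter fun P : K × K => (P.2, P.1 + P.2) = P) = {(0, 0)} := by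
      ext ⟨x, y⟩
      simp only [mem_filter, mem_univ, true_and, Prod.mk.injEq, mem_singleton, add_eq_right]
      constructor
      · rintro ⟨h1, h2⟩; exact ⟨h2, h1.trans h2⟩
      · rintro ⟨rfl, rfl⟩; exact ⟨rfl, rfl⟩
    rw [this]
    simp [D, N1]
  · rintro ⟨x, y⟩
    ext
    · simp only; linear_combination y * two
    · simp only; linear_combination (x + y) * two
  · rintro ⟨x, y⟩
    simp only [D, N1, map_add]
    congr 1
    linear_combination (b * y * σ y + x * y + y ^ 2) * two

theorem exists_sol [CharP K 2] (h : Good χ) (hσ : Frob χ σ) (b : K) : ∃ Y, M σ b Y = 1 := by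
  by_contra hc
  push Not at hc
  have h1 := F1_mod (χ := χ) (σ := σ) b
  rw [F1_eq h hσ, Finset.filter_false_of_mem (fun Y _ => hc Y)] at h1
  simp only [sum_empty, mul_zero] at h1
  exact absurd h1 (by decide)

theorem sgn_cases [CharP K 2] (h : Good χ) (hσ : Frob χ σ) (b : K) :
    sgn χ σ b = 1 ∨ sgn χ σ b = -1 := by
  obtain ⟨Y, hY⟩ := exists_sol h hσ b
  rw [sgn_eq h hσ hY]
  exact chi_eq Y

/-- The sign is a fixed linear combination of the two quadratic character sums. -/
theorem sgn_formula [CharP K 2] (h : Good χ) (hσ : Frob χ σ) {n : ℕ}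
    (hn : Fintype.card K = 2 ^ n) (b : K) :
    2 * Fintype.card K * sgn χ σ b =
      F1 χ σ b - (-1) ^ n * (F0 χ σ b - 2 * Fintype.card K) := by
  obtain ⟨Y, hY⟩ := exists_sol h hσ b
  have h1 := F1_mod (χ := χ) (σ := σ) b
  have h2 := F1_eq h hσ b
  rw [sum_sol h hσ hY, ← sgn_eq h hσ hY] at h2
  rw [F0_eq h hσ, h2]
  rw [h2] at h1
  have hQ : (Fintype.card K : ℤ) ≡ (-1) ^ n [ZMOD 3] := by
    rw [hn]; push_cast
    exact Int.ModEq.pow n (by decide)
  have hs : (V σ b).card = 1 ∨ (V σ b).card = 4 → sgn χ σ b = (-1) ^ n := by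
    intro hv
    have h3 : ((V σ b).card : ℤ) ≡ 1 [ZMOD 3] := by
      rcases hv with hv | hv <;> rw [hv] <;> decide
    have h4 : (-1) ^ n * (1 * sgn χ σ b) ≡ 1 [ZMOD 3] :=
      (hQ.mul (h3.mul_right _)).symm.trans h1
    rcases sgn_cases h hσ b with h5 | h5 <;> rcases neg_one_pow_eq_or ℤ n with h6 | h6 <;>
      rw [h5, h6] at h4 ⊢ <;> first | rfl | exact absurd h4 (by decide)
  rcases card_V_cases hσ hn b with hv | hv | hv
  · rw [hs (Or.inl hv), hv]; push_cast; ring
  · rw [hv]; push_cast; ring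
  · rw [hs (Or.inr hv), hv]; push_cast; ring

end Pool.Agent.P.MP_42ff57_nt
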