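import Pool.Agent.P.MP_42ff57_nt.Delta

namespace Pool.Agent.P.MP_42ff57_nt

open Finset

theorem pow_congr {A : Type*} [Monoid A] {m a b : ℕ} {u : A} (hu : u ^ (m + 1) = u)
    (hab : a ≡ b [MOD m]) (ha : 1 ≤ a) (hb : 1 ≤ b) : u ^ a = u ^ b := by
  have h1 : ∀ j, u ^ (m * j + 1) = u := by
    intro j
    induction j with
    | zero => simp
    | succ j ih =>
      have : m * (j + 1) + 1 = m * j + (m + 1) := by ring
      rw [this, pow_add, hu, ← pow_succ, ih]
  have h2 : ∀ a b : ℕ, a ≡ b [MOD m] → 1 ≤ a → a ≤ b → u ^ a = u ^ b := by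
    intro a b hab ha hle
    obtain ⟨j, hj⟩ := (Nat.modEq_iff_dvd' hle).mp hab
    obtain ⟨c, rfl⟩ : ∃ c, a = c + 1 := ⟨a - 1, by omega⟩
    have : b = c + (m * j + 1) := by omega
    rw [this, pow_add u c (m * j + 1), h1, pow_succ]
  rcases le_total a b with h | h
  · exact h2 a b hab ha h
  · exact (h2 b a hab.symm hb h).symm

theorem exists_exp {n k : ℕ} (hn : 1 ≤ n) (hk : Odd k) (hc : Nat.Coprime k n) :
    ∃ e e' : ℕ, 1 ≤ e ∧ 1 ≤ e' ∧ 3 * e ≡ 2 ^ k + 1 [MOD 4 ^ n - 1] ∧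
      e * e' ≡ 1 [MOD 4 ^ n - 1] := by
  obtain ⟨e₀, he₀⟩ : 3 ∣ 2 ^ k + 1 := by simpa using hk.nat_add_dvd_pow_add_pow 2 1
  obtain ⟨m, hm⟩ : 3 ∣ 4 ^ n - 1 := by simpa using Nat.sub_dvd_pow_sub_pow 4 1 n
  have hg : Nat.gcd (4 ^ k - 1) (4 ^ n - 1) = 3 := by
    rw [Nat.pow_sub_one_gcd_pow_sub_one, hc.gcd_eq_one]; norm_num
  have hd : 2 ^ k + 1 ∣ 4 ^ k - 1 := by
    have : 4 ^ k = (2 ^ k) ^ 2 := by rw [← pow_mul, mul_comm, pow_mul]; norm_num
    rw [this]
    exact ⟨2 ^ k - 1, by simpa using Nat.sq_sub_sq (2 ^ k) 1⟩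
  have hco : Nat.Coprime e₀ m := by
    have h1 : Nat.gcd (2 ^ k + 1) (4 ^ n - 1) ∣ 3 := hg ▸ Nat.gcd_dvd_gcd_of_dvd_left _ hd
    rw [he₀, hm, Nat.gcd_mul_left] at h1
    have h2 : Nat.gcd e₀ m ∣ 1 := Nat.dvd_of_mul_dvd_mul_left (by norm_num : 0 < 3) h1
    exact Nat.dvd_one.mp h2
  have he1 : 1 ≤ e₀ := by
    have : 0 < 2 ^ k := by positivity
    omega
  have h4 : 4 ≤ 4 ^ n := by simpa using Nat.pow_le_pow_right (by norm_num : 0 < 4) hn
  have key : ∀ e, 1 ≤ e → Nat.Coprime e m → ¬ 3 ∣ e → e ≡ e₀ [MOD m] →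
      ∃ e e' : ℕ, 1 ≤ e ∧ 1 ≤ e' ∧ 3 * e ≡ 2 ^ k + 1 [MOD 4 ^ n - 1] ∧
      e * e' ≡ 1 [MOD 4 ^ n - 1] := by
    intro e h1 h2 h3 h5
    have h6 : Nat.Coprime e (4 ^ n - 1) := by
      rw [hm]
      exact Nat.Coprime.mul_right ((Nat.Prime.coprime_iff_not_dvd Nat.prime_three).mpr h3).symm h2
    obtain ⟨e', -, he'⟩ := Nat.exists_mul_mod_eq_one_of_coprime h6 (by omega)
    refine ⟨e, e', h1, ?_, ?_, ?_⟩
    · rcases Nat.eq_zero_or_pos e' with h | h
      · simp [h] at he'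
      · exact h
    · rw [he₀, hm]; exact h5.mul_left' 3
    · unfold Nat.ModEq
      rw [he', Nat.mod_eq_of_lt (by omega)]
  by_cases h3 : 3 ∣ e₀
  · refine key (e₀ + m) (by omega) (by simpa using hco) ?_ (by simp)
    intro h
    have h7 : 3 ∣ m := (Nat.dvd_add_right h3).mp h
    have := Nat.dvd_gcd h3 h7
    rw [hco.gcd_eq_one] at this
    omega
  · exact key e₀ he1 hco h3 rfl

variable {K : Type*} [Field K] [Fintype K] [DecidableEq K]
variable {χ : AddChar K ℤ} {σ : K →+* K} {π : K →*₀ K}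

theorem sum_ne_zero_comp {f : K → K} (hf : Function.Bijective f) (h0 : f 0 = 0) (φ : K → ℤ) :
    ∑ x with x ≠ 0, φ (f x) = ∑ x with x ≠ 0, φ x := by
  refine Finset.sum_bijective f hf ?_ (fun _ _ => rfl)
  intro x
  simp only [mem_filter, mem_univ, true_and]
  rw [← h0, hf.1.ne_iff, h0]

omit [DecidableEq K] in
theorem pi_bij (hπ : Function.Injective π) : Function.Bijective π :=
  Finite.injective_iff_bijective.mp hπ

theorem swap_inner [CharP K 2] (h : Good χ) (hπ : Function.Injective π) (ν : K) :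
    ∑ u with u ≠ 0, χ (π u) * χ (u⁻¹ ^ 2 * ν) =
      ∑ z with z ≠ 0, χ z * χ (π (z⁻¹ ^ 2 * ν)) := by
  obtain ⟨s, rfl⟩ := (sigma_bij (frobenius K 2)).2 ν
  simp only [frobenius_def, ← mul_pow, map_pow, h.sq]
  by_cases hs : s = 0
  · subst hs
    simp only [mul_zero, map_zero, AddChar.map_zero_eq_one, mul_one]
    exact sum_ne_zero_comp (pi_bij hπ) (map_zero π) _
  · have hb : Function.Bijective fun z : K => z⁻¹ * s :=
      (mulRight_bijective₀ s hs).comp inv_involutive.bijective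
    rw [← sum_ne_zero_comp hb (by simp)]
    refine Finset.sum_congr rfl fun z hz => ?_
    have hz' : z ≠ 0 := by simpa using hz
    have : (z⁻¹ * s)⁻¹ * s = z := by field_simp
    rw [this, mul_comm]

omit [Fintype K] [DecidableEq K] in
theorem smul_bij {t : K} (ht : t ≠ 0) : Function.Bijective fun P : K × K => t • P :=
  MulAction.bijective (Units.mk0 t ht)

theorem swap [CharP K 2] (h : Good χ) (hπ : Function.Injective π) (D₁ Dk N : K × K → K)
    (hD₁ : ∀ (t : K) P, D₁ (t • P) = t ^ 3 * D₁ P) (hDk : ∀ (t : K) P, Dk (t • P) = π t ^ 3 * Dk P)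
    (hN : ∀ (t : K) P, N (t • P) = t ^ 2 * N P) (ρ : K × K → K × K) (hρ : Function.Injective ρ)
    (h₁ : ∀ P, D₁ (ρ P) = Dk P) (h₂ : ∀ P, N (ρ P) = π (N P)) (b : K) :
    ∑ t with t ≠ 0, χ t * ∑ P, χ (b * t ^ 3 * Dk P + N P) =
      ∑ z with z ≠ 0, χ z * ∑ P, χ (b * π z ^ 3 * D₁ P + N P) := by
  have hL : ∑ t with t ≠ 0, χ t * ∑ P, χ (b * t ^ 3 * Dk P + N P) =
      ∑ u with u ≠ 0, ∑ P, χ (b * Dk P) * (χ (π u) * χ (u⁻¹ ^ 2 * N P)) := by
    rw [← sum_ne_zero_comp (pi_bij hπ) (map_zero π)]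
    refine Finset.sum_congr rfl fun u hu => ?_
    have hu' : u ≠ 0 := by simpa using hu
    have hp : π u ≠ 0 := by simpa using hu'
    rw [← (smul_bij (inv_ne_zero hu')).sum_comp, Finset.mul_sum]
    refine Finset.sum_congr rfl fun P _ => ?_
    have : b * π u ^ 3 * (π u⁻¹ ^ 3 * Dk P) = b * Dk P := by rw [map_inv₀]; field_simp
    rw [hDk, hN, this, AddChar.map_add_eq_mul]; ring
  have hR : ∑ z with z ≠ 0, χ z * ∑ P, χ (b * π z ^ 3 * D₁ P + N P) =
      ∑ z with z ≠ 0, ∑ P, χ (b * Dk P) * (χ z * χ (π (z⁻¹ ^ 2 * N P))) := by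
    refine Finset.sum_congr rfl fun z hz => ?_
    have hz' : z ≠ 0 := by simpa using hz
    have hp : π z ≠ 0 := by simpa using hz'
    rw [← (smul_bij (inv_ne_zero hp)).sum_comp,
      ← (Finite.injective_iff_bijective.mp hρ).sum_comp, Finset.mul_sum]
    refine Finset.sum_congr rfl fun P _ => ?_
    have : b * π z ^ 3 * ((π z)⁻¹ ^ 3 * Dk P) = b * Dk P := by field_simp
    rw [hD₁, hN, h₁, h₂, this, AddChar.map_add_eq_mul, map_mul π, map_pow π, map_inv₀ π]; ring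
  rw [hL, hR, Finset.sum_comm, Finset.sum_comm (s := univ.filter fun z : K => z ≠ 0)]
  refine Finset.sum_congr rfl fun P _ => ?_
  rw [← Finset.mul_sum, ← Finset.mul_sum, swap_inner h hπ]

omit [Fintype K] [DecidableEq K] in
theorem D_smul (t : K) (P : K × K) : D σ (t • P) = t * σ t * D σ P := by
  simp only [D, Prod.smul_fst, Prod.smul_snd, smul_eq_mul, map_mul]; ring

theorem swap_F0 [CharP K 2] (h : Good χ) (hσ : Frob χ σ) (hπ : Function.Injective π)
    (h3 : ∀ x, π x ^ 3 = x * σ x) (b : K) :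
    ∑ t with t ≠ 0, χ t * F0 χ σ (b * t ^ 3) =
      ∑ z with z ≠ 0, χ z * F0 χ (frobenius K 2) (b * π z ^ 3) := by
  let ρ : K × K → K × K := fun P => if P.1 * P.2 = 0 then P else
    (P.1 * σ P.2 / π (P.1 * P.2), σ P.1 * P.2 / π (P.1 * P.2))
  have h₂ : ∀ P, N0 (ρ P) = π (N0 P) := by
    rintro ⟨X, Y⟩
    simp only [ρ, N0]
    split_ifs with hP
    · rw [hP, map_zero]
    · have hp : π (X * Y) ≠ 0 := by rwa [map_ne_zero]
      have := h3 (X * Y)
      rw [map_mul σ] at this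
      field_simp
      linear_combination -this
  refine swap h hπ (D (frobenius K 2)) (D σ) N0 ?_ ?_ ?_ ρ ?_ ?_ h₂ b
  · intro t P; rw [D_smul, frobenius_def]; ring
  · intro t P; rw [D_smul, h3]
  · intro t P; simp only [N0, Prod.smul_fst, Prod.smul_snd, smul_eq_mul]; ring
  · rintro ⟨X, Y⟩ ⟨X', Y'⟩ hP
    have h4 : X * Y = X' * Y' := by
      apply hπ
      have := h₂ (X, Y)
      rw [hP, h₂] at this
      exact this.symm
    simp only [ρ, ← h4] at hP
    split_ifs at hP with h0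
    · exact hP
    · have hp : π (X * Y) ≠ 0 := by rwa [map_ne_zero]
      have hX : X ≠ 0 := left_ne_zero_of_mul h0
      have hY : Y ≠ 0 := right_ne_zero_of_mul h0
      have hY' : Y' ≠ 0 := right_ne_zero_of_mul (h4 ▸ h0)
      have hsY' : σ Y' ≠ 0 := by simpa using hY'
      have h5 := (div_left_inj' hp).mp (congrArg Prod.fst hP)
      have h6 : σ (Y / Y') = Y / Y' := by
        rw [map_div₀]
        field_simp
        apply mul_left_cancel₀ hX
        linear_combination Y' * h5 - σ Y' * h4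
      have h7 : Y = Y' := by
        rcases hσ.fix _ h6 with h | h
        · exact absurd h (div_ne_zero hY hY')
        · exact (div_eq_one_iff_eq hY').mp h
      subst h7
      rw [mul_right_cancel₀ hY h4]
  · rintro ⟨X, Y⟩
    simp only [ρ, D, frobenius_def]
    split_ifs with hP
    · rcases mul_eq_zero.mp hP with h | h <;> simp [h]
    · have hp : π (X * Y) ≠ 0 := by rwa [map_ne_zero]
      have := h3 (X * Y)
      rw [map_mul σ] at this
      field_simp
      linear_combination -(X * σ Y + σ X * Y) * this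

section Alg

omit [Fintype K] [DecidableEq K]

theorem qa_sq [CharP K 2] (z : QuadraticAlgebra K 1 1) :
    z ^ 2 = ⟨z.re ^ 2 + z.im ^ 2, z.im ^ 2⟩ := by
  ext
  · simp [sq]
  · simp only [sq, QuadraticAlgebra.im_mul]
    linear_combination (norm := (ring_nf; reduce_mod_char!))

theorem qa_four_pow [CharP K 2] (j : ℕ) (z : QuadraticAlgebra K 1 1) :
    z ^ 4 ^ j = ⟨z.re ^ 4 ^ j, z.im ^ 4 ^ j⟩ := by
  induction j with
  | zero => simp
  | succ j ih =>
    have : ∀ {A : Type _} [Monoid A] (w : A), w ^ 4 ^ (j + 1) = ((w ^ 4 ^ j) ^ 2) ^ 2 := by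
      intro A _ w
      rw [← pow_mul, ← pow_mul, pow_succ]
    rw [this, this, this, ih, qa_sq, qa_sq]
    ext
    · simp only
      linear_combination (norm := (ring_nf; reduce_mod_char!))
    · rfl

theorem qa_im [CharP K 2] {k : ℕ} (hk : Odd k) (z : QuadraticAlgebra K 1 1) :
    (z ^ (2 ^ k + 1)).im = z.re * z.im ^ 2 ^ k + z.re ^ 2 ^ k * z.im := by
  obtain ⟨j, rfl⟩ := hk
  have : ∀ {A : Type _} [Monoid A] (w : A), w ^ 2 ^ (2 * j + 1) = (w ^ 4 ^ j) ^ 2 := by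
    intro A _ w
    rw [← pow_mul, pow_succ, pow_mul 2 2 j]; norm_num
  rw [pow_succ, this, this, this, qa_four_pow, qa_sq]
  simp only [QuadraticAlgebra.im_mul]
  linear_combination (norm := (ring_nf; reduce_mod_char!))

theorem qa_norm [CharP K 2] (z : QuadraticAlgebra K 1 1) : z.norm = N1 (z.re, z.im) := by
  simp only [QuadraticAlgebra.norm_def, N1]
  linear_combination (norm := (ring_nf; reduce_mod_char!))

end Alg

omit [DecidableEq K] in
theorem pow_four_pow {n : ℕ} (hn : Fintype.card K = 2 ^ n) (x : K) : x ^ 4 ^ n = x := by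
  have : 4 ^ n = Fintype.card K ^ 2 := by rw [hn, ← pow_mul, mul_comm, pow_mul]; norm_num
  rw [this, FiniteField.pow_card_pow]

theorem swap_F1 [CharP K 2] (h : Good χ) {n k e e' : ℕ} (hn : Fintype.card K = 2 ^ n)
    (hk : Odd k) (he : 1 ≤ e) (he' : 1 ≤ e') (h1 : 3 * e ≡ 2 ^ k + 1 [MOD 4 ^ n - 1])
    (h2 : e * e' ≡ 1 [MOD 4 ^ n - 1]) (hσ : ∀ x, σ x = x ^ 2 ^ k) (hπe : ∀ x, π x = x ^ e)
    (hπ : Function.Injective π) (h3 : ∀ x, π x ^ 3 = x * σ x) (b : K) :
    ∑ t with t ≠ 0, χ t * F1 χ σ (b * t ^ 3) =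
      ∑ z with z ≠ 0, χ z * F1 χ (frobenius K 2) (b * π z ^ 3) := by
  let ι : K × K → QuadraticAlgebra K 1 1 := fun P => ⟨P.1, P.2⟩
  let ρ : K × K → K × K := fun P => ((ι P ^ e).re, (ι P ^ e).im)
  have hz : ∀ z : QuadraticAlgebra K 1 1, z ^ (4 ^ n - 1 + 1) = z := by
    intro z
    have : 1 ≤ 4 ^ n := Nat.one_le_pow _ _ (by norm_num)
    rw [Nat.sub_add_cancel this, qa_four_pow, pow_four_pow hn, pow_four_pow hn]
  refine swap h hπ (D (frobenius K 2)) (D σ) N1 ?_ ?_ ?_ ρ ?_ ?_ ?_ b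
  · intro t P; rw [D_smul, frobenius_def]; ring
  · intro t P; rw [D_smul, h3]
  · intro t P; simp only [N1, Prod.smul_fst, Prod.smul_snd, smul_eq_mul]; ring
  · intro P P' hP
    have h4 : ι P ^ e = ι P' ^ e :=
      QuadraticAlgebra.ext (congrArg Prod.fst hP) (congrArg Prod.snd hP)
    have h5 : ∀ z : QuadraticAlgebra K 1 1, (z ^ e) ^ e' = z := by
      intro z
      rw [← pow_mul, pow_congr (hz z) h2 (Nat.mul_pos he he') le_rfl, pow_one]
    have h6 : ι P = ι P' := by rw [← h5 (ι P), h4, h5]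
    exact Prod.ext (congrArg QuadraticAlgebra.re h6) (congrArg QuadraticAlgebra.im h6)
  · intro P
    have h4 := qa_im (k := 1) odd_one (ι P ^ e)
    have h5 := qa_im hk (ι P)
    rw [← pow_mul, mul_comm e, show 2 ^ 1 + 1 = 3 from rfl,
      pow_congr (hz _) h1 (by omega) (Nat.le_add_left _ _), h5] at h4
    simp only [D, frobenius_def, hσ, ρ]
    simpa using h4.symm
  · intro P
    have h4 := qa_norm (ι P ^ e)
    rw [map_pow, qa_norm] at h4
    rw [hπe]
    exact h4.symm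

end Pool.Agent.P.MP_42ff57_nt
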